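import Pool.Agent.PQ.End
import Pool.Agent.CE.Final

/-!
# Project PQ: the theorem for all groups which are coarsely equivalent to a group of the class
-/

set_option autoImplicit false
set_option linter.unusedSectionVars false

open Finset Pointwise

namespace Pool.Agent.PQ

open Pool.Agent.H37.TM Pool.Agent.H65.RM Pool.Agent.S10 Pool.Agent.S11 Pool.Agent.S14 Pool.Agent.TW Pool.Agent.CE
open Pool.Agent.H10.CI (CoarseEmb)

/-- composition of coarse embeddings -/
theorem coarse_comp {G Q L : Type} [Group G] [Group Q] [Group L] {f : G → Q} {e : Q → L} (he : CoarseEmb e)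
    (hf : CoarseEmb f) : CoarseEmb (fun g => e (f g)) where
  lip := lip_comp hf.lip he.lip
  prop := fun x => by
    refine (hf.prop_fin (he.prop x)).subset ?_
    rintro a ⟨g, hg⟩
    refine ⟨g, f g, ?_⟩
    rw [mul_inv_cancel_left]
    exact hg

/-- a coarse equivalence: a coarse embedding such that every element is near to the image -/
structure CoarseEq {G Q : Type} [Group G] [Group Q] (f : G → Q) : Prop extends CoarseEmb f where
  onto : ∃ F : Finset Q, ∀ q : Q, ∃ g : G, (f g)⁻¹ * q ∈ F

/-- **The theorem.** -/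
theorem pq_main {V W U G Q L : Type} [DecidableEq V] [DecidableEq W] [DecidableEq U] [Group G] [MulAction G V] [Group Q]
    [MulAction Q W] [Group L] [MulAction L U] {X : Set (Finset V)} (hX : Acyc X) (hXR : AcR X) (hG : IsGeomS G X)
    (H : Subgroup G) (hH : H.FiniteIndex) (hU : RAL H ∨ Tower (⊤ : Subgroup H)) {Y : Set (Finset W)} (hY : AcR Y)
    (hQ : IsGeomS Q Y) {f : G → Q} (hf : CoarseEq f) {e : Q → L} (he : CoarseEmb e) {M B : Set (Finset U)} {n : ℕ}
    (hM : ManOrDual L M B n (n + 1)) (hA : PAct L M B) (i : ℕ) (hn : n < 2 * i) : L2ZeroS Y i :=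
  l2zero_of_coarse hG hQ hXR hY hf.toCoarseEmb hf.onto (main_ce hG hX H hU (coarse_comp he hf.toCoarseEmb) hM hA i hn)

end Pool.Agent.PQ
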