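import Pool.Agent.PQ.Defs

/-!
# Project PQ: the finite boundary

PROOFS.  `bdF_single`, `lc_single`: `Finsupp.linearCombination_single`.  `bdF_apply`: both sides are linear in `z` (for finitely supported functions the `finsum`
over `v ∉ s` has finite support, contained in the union of the simplices of the support of `z`); for `z = single t 1`: the coefficient at `s` is
`sgR r s v` if `t = insert v s` with `v ∉ s`, and `0` otherwise.  `bdF_bdF`: on `single t 1`: a double sum over the pairs `(v, w)` of different vertices of `t`;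
the terms of `(v, w)` and `(w, v)` cancel: `sgR r (t.erase v) v * sgR r ((t.erase v).erase w) w = - sgR r (t.erase w) w * sgR r ((t.erase w).erase v) v`
(if `r v w`, removing `v` changes the position of `w` by one and removing `w` does not change the position of `v`); compare `hil_bb`, `hil_sg` in `S11/EdHil.lean`.
-/

set_option autoImplicit false
set_option linter.unusedSectionVars false

open Finset Pointwise

noncomputable section

namespace Pool.Agent.PQ

open Pool.Agent.S11 Pool.Agent.H10.CI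

variable {U V : Type} [DecidableEq U] [DecidableEq V]

private theorem bd_sg (r : U → U → Prop) {s : Finset U} {a b : U} (ha : a ∉ s) (h : r a b) :
    sgR r (insert a s) b = - sgR r s b := by
  classical
  unfold sgR
  rw [Finset.filter_insert, if_pos h, Finset.card_insert_of_notMem, pow_succ, mul_neg, mul_one]
  exact fun h1 => ha (Finset.mem_filter.1 h1).1

private theorem bd_sg' (r : U → U → Prop) {s : Finset U} {a b : U} (h : ¬ r a b) :
    sgR r (insert a s) b = sgR r s b := by
  classical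
  unfold sgR
  rw [Finset.filter_insert, if_neg h]

private theorem bd_sg_abs (r : U → U → Prop) (s : Finset U) (v : U) : |(sgR r s v : ℝ)| = 1 := by
  unfold sgR
  push_cast
  rw [abs_pow, abs_neg, abs_one, one_pow]

theorem bdF_single (r : U → U → Prop) (t : Finset U) :
    bdF r (Finsupp.single t 1) = ∑ v ∈ t, (sgR r (t.erase v) v : ℝ) • Finsupp.single (t.erase v) (1 : ℝ) := by
  unfold bdF
  rw [Finsupp.linearCombination_single, one_smul]

theorem lc_single (Φ : Finset V → Finset U →₀ ℝ) (t : Finset V) : lc Φ (Finsupp.single t 1) = Φ t := by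
  unfold lc
  rw [Finsupp.linearCombination_single, one_smul]

private theorem bd_lc (Φ : Finset V → Finset U →₀ ℝ) (z : Finset V →₀ ℝ) (s : Finset U) :
    lc Φ z s = ∑ t ∈ z.support, z t * Φ t s := by
  unfold lc
  rw [Finsupp.linearCombination_apply, Finsupp.sum, Finsupp.finsetSum_apply]
  rfl

theorem lc_ne {Φ : Finset V → Finset U →₀ ℝ} {z : Finset V →₀ ℝ} {s : Finset U} (h : lc Φ z s ≠ 0) :
    ∃ t, z t ≠ 0 ∧ Φ t s ≠ 0 := by
  rw [bd_lc] at h
  obtain ⟨t, _, ht⟩ := Finset.exists_ne_zero_of_sum_ne_zero h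
  exact ⟨t, left_ne_zero_of_mul ht, right_ne_zero_of_mul ht⟩

theorem lc_apply (Φ : Finset V → Finset U →₀ ℝ) (z : Finset V →₀ ℝ) (s : Finset U) :
    lc Φ z s = ∑ t ∈ z.support, z t * Φ t s := bd_lc Φ z s

private theorem bd_face (r : U → U → Prop) (t s : Finset U) :
    (∑ v ∈ t, (sgR r (t.erase v) v : ℝ) • Finsupp.single (t.erase v) (1 : ℝ)) s =
      ∑ v ∈ t, if t.erase v = s then (sgR r s v : ℝ) else 0 := by
  rw [Finsupp.finsetSum_apply]
  refine Finset.sum_congr rfl fun v _ => ?_
  rw [Finsupp.smul_apply, Finsupp.single_apply, smul_eq_mul]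
  split_ifs with h
  · rw [h, mul_one]
  · rw [mul_zero]

theorem bdF_ne {r : U → U → Prop} {z : Finset U →₀ ℝ} {s : Finset U} (h : bdF r z s ≠ 0) :
    ∃ t, z t ≠ 0 ∧ ∃ v ∈ t, s = t.erase v := by
  have h' : lc (fun t => ∑ v ∈ t, (sgR r (t.erase v) v : ℝ) • Finsupp.single (t.erase v) (1 : ℝ)) z s ≠ 0 := h
  obtain ⟨t, h1, h2⟩ := lc_ne h'
  refine ⟨t, h1, ?_⟩
  rw [bd_face] at h2
  obtain ⟨v, hv, h3⟩ := Finset.exists_ne_zero_of_sum_ne_zero h2
  refine ⟨v, hv, ?_⟩
  by_contra h4
  exact h3 (if_neg fun h5 => h4 h5.symm)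

theorem bdF_apply (r : U → U → Prop) (z : Finset U →₀ ℝ) (s : Finset U) : bdF r z s = bdR r z s := by
  classical
  have h1 : bdF r z s = ∑ t ∈ z.support, z t * (∑ v ∈ t, (sgR r (t.erase v) v : ℝ) •
      Finsupp.single (t.erase v) (1 : ℝ)) s :=
    bd_lc (fun t => ∑ v ∈ t, (sgR r (t.erase v) v : ℝ) • Finsupp.single (t.erase v) (1 : ℝ)) z s
  obtain ⟨W, hW⟩ : ∃ W : Finset U, W = (z.support.biUnion id).filter fun v => v ∉ s := ⟨_, rfl⟩
  have hWm : ∀ v, v ∈ W ↔ (∃ t, z t ≠ 0 ∧ v ∈ t) ∧ v ∉ s := by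
    intro v
    rw [hW, Finset.mem_filter, Finset.mem_biUnion]
    simp only [Finsupp.mem_support_iff, id]
  have h2 : bdR r z s = ∑ v ∈ W, (sgR r s v : ℝ) * z (insert v s) := by
    unfold bdR
    refine finsum_mem_eq_sum_of_inter_support_eq _ ?_
    ext v
    simp only [Set.mem_inter_iff, Set.mem_setOf_eq, Function.mem_support, Finset.mem_coe, hWm]
    constructor
    · rintro ⟨h3, h4⟩
      exact ⟨⟨⟨insert v s, right_ne_zero_of_mul h4, Finset.mem_insert_self _ _⟩, h3⟩, h4⟩
    · rintro ⟨⟨_, h3⟩, h4⟩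
      exact ⟨h3, h4⟩
  rw [h1, h2]
  have h3 : ∀ t ∈ z.support, z t * (∑ v ∈ t, (sgR r (t.erase v) v : ℝ) •
      Finsupp.single (t.erase v) (1 : ℝ)) s =
      ∑ v ∈ t.filter (fun v => t.erase v = s), z t * (sgR r s v : ℝ) := by
    intro t _
    rw [bd_face, ← Finset.sum_filter, Finset.mul_sum]
  rw [Finset.sum_congr rfl h3]
  rw [Finset.sum_comm' (s' := fun v => z.support.filter fun t => t = insert v s) (t' := W)]
  · refine Finset.sum_congr rfl fun v _ => ?_
    rw [Finset.sum_filter, Finset.sum_ite_eq']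
    split_ifs with h4
    · ring
    · rw [Finsupp.notMem_support_iff.1 h4, mul_zero]
  · intro t v
    rw [Finset.mem_filter, Finset.mem_filter, hWm, Finsupp.mem_support_iff]
    constructor
    · rintro ⟨h4, h5, h6⟩
      have h7 : v ∉ s := by
        rw [← h6]
        exact Finset.notMem_erase v t
      refine ⟨⟨h4, ?_⟩, ⟨t, h4, h5⟩, h7⟩
      rw [← h6, Finset.insert_erase h5]
    · rintro ⟨⟨h4, h5⟩, _, h7⟩
      refine ⟨h4, ?_, ?_⟩
      · rw [h5]
        exact Finset.mem_insert_self _ _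
      · rw [h5, Finset.erase_insert h7]

private theorem bd_pair {r : U → U → Prop} (hr : IsStrictTotalOrder U r) {s : Finset U} {v w : U} (hvw : v ≠ w)
    (hv : v ∉ s) (hw : w ∉ s) :
    (sgR r (insert w s) v : ℝ) * (sgR r s w : ℝ) + (sgR r (insert v s) w : ℝ) * (sgR r s v : ℝ) = 0 := by
  have htri : (r v w ∧ ¬ r w v) ∨ (r w v ∧ ¬ r v w) := by
    by_cases h1 : r v w
    · exact Or.inl ⟨h1, fun h2 => hr.toIsStrictOrder.toIrrefl.irrefl v (hr.toIsStrictOrder.toIsTrans.trans _ _ _ h1 h2)⟩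
    · by_cases h2 : r w v
      · exact Or.inr ⟨h2, h1⟩
      · exact absurd (hr.toTrichotomous.trichotomous v w h1 h2) hvw
  rcases htri with ⟨h1, h2⟩ | ⟨h1, h2⟩
  · rw [bd_sg' r h2, bd_sg r hv h1]
    push_cast
    ring
  · rw [bd_sg r hw h1, bd_sg' r h2]
    push_cast
    ring

theorem bdF_bdF {r : U → U → Prop} (hr : IsStrictTotalOrder U r) (z : Finset U →₀ ℝ) : bdF r (bdF r z) = 0 := by
  have key : ∀ t : Finset U, bdF r (bdF r (Finsupp.single t 1)) = 0 := by
    intro t
    rw [bdF_single, map_sum]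
    have h1 : ∀ v ∈ t, bdF r ((sgR r (t.erase v) v : ℝ) • Finsupp.single (t.erase v) (1 : ℝ)) =
        ∑ w ∈ t.erase v, ((sgR r (t.erase v) v : ℝ) * (sgR r ((t.erase v).erase w) w : ℝ)) •
          Finsupp.single ((t.erase v).erase w) (1 : ℝ) := by
      intro v _
      rw [map_smul, bdF_single, Finset.smul_sum]
      exact Finset.sum_congr rfl fun w _ => by rw [smul_smul]
    rw [Finset.sum_congr rfl h1, Finset.sum_sigma']
    refine Finset.sum_involution (fun p _ => ⟨p.2, p.1⟩) ?_ ?_ ?_ ?_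
    · rintro ⟨v, w⟩ hp
      rw [Finset.mem_sigma] at hp
      obtain ⟨hv, hw⟩ := hp
      simp only at hv hw ⊢
      have hwv : w ≠ v := Finset.ne_of_mem_erase hw
      have hwt : w ∈ t := Finset.mem_of_mem_erase hw
      obtain ⟨s, hs⟩ : ∃ s, s = (t.erase v).erase w := ⟨_, rfl⟩
      have hs' : (t.erase w).erase v = s := by rw [hs, Finset.erase_right_comm]
      have hws : w ∉ s := by rw [hs]; exact Finset.notMem_erase _ _
      have hvs : v ∉ s := by rw [← hs']; exact Finset.notMem_erase _ _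
      have e1 : t.erase v = insert w s := by rw [hs, Finset.insert_erase hw]
      have e2 : t.erase w = insert v s := by
        rw [← hs', Finset.insert_erase (Finset.mem_erase.2 ⟨hwv.symm, hv⟩)]
      rw [hs', ← hs, e1, e2, ← add_smul, bd_pair hr hwv.symm hvs hws, zero_smul]
    · rintro ⟨v, w⟩ hp _ h
      rw [Finset.mem_sigma] at hp
      have h2 : w = v := congrArg Sigma.fst h
      exact Finset.ne_of_mem_erase hp.2 h2
    · rintro ⟨v, w⟩ hp
      rw [Finset.mem_sigma] at hp ⊢
      obtain ⟨hv, hw⟩ := hp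
      simp only at hv hw ⊢
      exact ⟨Finset.mem_of_mem_erase hw, Finset.mem_erase.2 ⟨(Finset.ne_of_mem_erase hw).symm, hv⟩⟩
    · rintro ⟨v, w⟩ _
      rfl
  have h2 : (bdF r).comp (bdF r) = 0 := by
    refine Finsupp.lhom_ext fun t b => ?_
    have h3 : (Finsupp.single t b : Finset U →₀ ℝ) = b • Finsupp.single t 1 := by
      rw [Finsupp.smul_single, smul_eq_mul, mul_one]
    rw [LinearMap.comp_apply, h3, map_smul, map_smul, key, smul_zero, LinearMap.zero_apply]
  exact LinearMap.congr_fun h2 z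

/-- boundaries are bounded -/
theorem bdF_abs_le (r : U → U → Prop) (t s : Finset U) : |bdF r (Finsupp.single t 1) s| ≤ 1 := by
  rw [bdF_single, bd_face]
  by_cases h : ∃ v ∈ t, t.erase v = s
  · obtain ⟨v, hv, hvs⟩ := h
    rw [Finset.sum_eq_single_of_mem v hv, if_pos hvs, bd_sg_abs]
    intro w hw hwv
    refine if_neg fun h1 => hwv ?_
    by_contra h2
    have h3 : w ∈ t.erase v := Finset.mem_erase.2 ⟨h2, hw⟩
    rw [hvs, ← h1] at h3
    exact Finset.notMem_erase _ _ h3
  · rw [Finset.sum_eq_zero, abs_zero]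
    · exact zero_le_one
    · intro v hv
      exact if_neg fun h1 => h ⟨v, hv, h1⟩

end Pool.Agent.PQ
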