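import Pool.Agent.PQ.Bd

/-!
# Project PQ: identity, size of the supports, change of the map between the groups

PROOFS.  `Ctr.close`: `f₁ g = f₂ g * x` with `x` in the finite set `E`; `F' =` the union of the `x • F`.  `Ctr.supp_card`: `t = g • t₀` with `t₀` in a finite set (`hX.cocompact`; for `k = 0` only `t = ∅`), the support is in `f g • F(t₀)` (`near`).
-/

set_option autoImplicit false
set_option linter.unusedSectionVars false

open Finset Pointwise

noncomputable section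

namespace Pool.Agent.PQ

open Pool.Agent.S11 Pool.Agent.H10.CI

variable {U V W G L K : Type} [DecidableEq U] [DecidableEq V] [DecidableEq W] [Group G] [Group L] [Group K]
  [MulAction G V] [MulAction L U] [MulAction K W] {X : Set (Finset V)} {Y : Set (Finset U)} {Z : Set (Finset W)}

theorem Ctr.id (X : Set (Finset V)) : Ctr (fun g : G => g) X X 0 0 (fun t => Finsupp.single t (1 : ℝ)) := by
  have key : ∀ t s : Finset V, Finsupp.single t (1 : ℝ) s ≠ 0 → s = t := by
    intro t s h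
    by_contra h1
    refine h ?_
    rw [Finsupp.single_apply, if_neg]
    exact fun h2 => h1 h2.symm
  refine ⟨?_, ?_, ?_⟩
  · intro t ht s hs
    rw [key t s hs]
    exact ⟨ht, rfl⟩
  · intro t _
    refine ⟨{t}, fun g s hs => ⟨t, Finset.mem_singleton_self t, key _ _ hs⟩⟩
  · intro k
    refine ⟨1, fun t _ _ s => ?_⟩
    rw [Finsupp.single_apply]
    split_ifs
    · rw [abs_one]
    · rw [abs_zero]
      exact zero_le_one

theorem ChM.id (r : V → V → Prop) (X : Set (Finset V)) : ChM r r X (fun t => Finsupp.single t (1 : ℝ)) := by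
  have key : lc (fun t : Finset V => Finsupp.single t (1 : ℝ)) = LinearMap.id := by
    refine Finsupp.lhom_ext fun t b => ?_
    unfold lc
    rw [Finsupp.linearCombination_single, Finsupp.smul_single, smul_eq_mul, mul_one, LinearMap.id_apply]
  intro t _
  rw [key, LinearMap.id_apply]

private theorem cma_card {X : Set (Finset V)} {f : G → L} {a b : ℕ} {Φ : Finset V → Finset U →₀ ℝ}
    (hΦ : Ctr f X Y a b Φ) (t₀ : Finset V) : ∃ N : ℕ, In X t₀ → ∀ g : G, (Φ (g • t₀)).support.card ≤ N := by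
  by_cases h : In X t₀
  · obtain ⟨F, hF⟩ := hΦ.near t₀ h
    refine ⟨F.card, fun _ g => ?_⟩
    have h1 : (Φ (g • t₀)).support ⊆ F.image fun s => f g • s := by
      intro s hs
      obtain ⟨s₀, h2, h3⟩ := hF g s (Finsupp.mem_support_iff.1 hs)
      exact Finset.mem_image.2 ⟨s₀, h2, h3.symm⟩
    exact (Finset.card_le_card h1).trans Finset.card_image_le
  · exact ⟨0, fun h1 => absurd h1 h⟩

/-- the supports have bounded size -/
theorem Ctr.supp_card (hX : IsGeomS G X) {f : G → L} {a b : ℕ} {Φ : Finset V → Finset U →₀ ℝ} (hΦ : Ctr f X Y a b Φ)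
    (k : ℕ) : ∃ N : ℕ, ∀ t, In X t → t.card = k → (Φ t).support.card ≤ N := by
  obtain ⟨F, hF⟩ := hX.cocompact
  choose N hN using cma_card hΦ
  refine ⟨(Φ ∅).support.card + ∑ t₀ ∈ F, N t₀, fun t ht _ => ?_⟩
  rcases ht with ht | ht
  · obtain ⟨g, hg⟩ := hF t ht
    have h1 : In X (g • t) := Or.inl (hX.mem g t ht)
    have h2 := hN (g • t) h1 g⁻¹
    rw [inv_smul_smul] at h2
    have h3 : N (g • t) ≤ ∑ t₀ ∈ F, N t₀ := Finset.single_le_sum (f := N) (fun _ _ => Nat.zero_le _) hg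
    omega
  · rw [ht]
    exact Nat.le_add_right _ _

theorem Ctr.close {f₁ f₂ : G → L} (hE : {x : L | ∃ g, (f₂ g)⁻¹ * f₁ g = x}.Finite) {a b : ℕ}
    {Φ : Finset V → Finset U →₀ ℝ} (hΦ : Ctr f₁ X Y a b Φ) : Ctr f₂ X Y a b Φ := by
  classical
  refine ⟨hΦ.mem, ?_, hΦ.bdd⟩
  intro t ht
  obtain ⟨F, hF⟩ := hΦ.near t ht
  refine ⟨hE.toFinset.biUnion fun x => F.image fun s => x • s, fun g s hs => ?_⟩
  obtain ⟨s₀, h1, h2⟩ := hF g s hs
  refine ⟨((f₂ g)⁻¹ * f₁ g) • s₀, ?_, ?_⟩
  · refine Finset.mem_biUnion.2 ⟨(f₂ g)⁻¹ * f₁ g, ?_, Finset.mem_image.2 ⟨s₀, h1, rfl⟩⟩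
    rw [Set.Finite.mem_toFinset]
    exact ⟨g, rfl⟩
  · rw [smul_smul, mul_inv_cancel_left, h2]

end Pool.Agent.PQ
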