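import Pool.Agent.PQ.CmA

/-!
# Project PQ: compositions

PROOFS.  `Ctr.comp`: `mem`: `lc_ne`; `near`: for `t` let `F` be finite for `Φ` at `t`; every `s₀ ∈ F` with `In Y s₀` has a finite `F'(s₀)` from `near` of `Ψ` (the simplices of `F` which are not in `Y` do not occur, by `mem` and invariance `hY.mem`); the union.
`bdd` in the number `k` of vertices: `|lc Ψ (Φ t) x| ≤ (card of the support of Φ t) * C * C'` (`Ctr.supp_card`, `lc_apply`).  `ChM.comp`: `bdF r'' (lc Ψ (Φ t)) = lc Ψ (bdF r' (Φ t))` (linear, `h₂` for the simplices of the support of `Φ t`, which satisfy `In Y`) `= lc Ψ (lc Φ (bdF r (single t 1)))`.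
-/

set_option autoImplicit false
set_option linter.unusedSectionVars false

open Finset Pointwise

noncomputable section

namespace Pool.Agent.PQ

open Pool.Agent.S11 Pool.Agent.H10.CI

variable {U V W G L K : Type} [DecidableEq U] [DecidableEq V] [DecidableEq W] [Group G] [Group L] [Group K]
  [MulAction G V] [MulAction L U] [MulAction K W] {X : Set (Finset V)} {Y : Set (Finset U)} {Z : Set (Finset W)}

private theorem cmb_ext {M : Type} [AddCommGroup M] [Module ℝ M] (A B : (Finset U →₀ ℝ) →ₗ[ℝ] M) (z : Finset U →₀ ℝ)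
    (h : ∀ u, z u ≠ 0 → A (Finsupp.single u 1) = B (Finsupp.single u 1)) : A z = B z := by
  have h1 : z = ∑ u ∈ z.support, z u • Finsupp.single u (1 : ℝ) := by
    conv_lhs => rw [← Finsupp.sum_single z]
    unfold Finsupp.sum
    exact sum_congr rfl fun u _ => (Finsupp.smul_single_one u (z u)).symm
  have h2 : ∀ C : (Finset U →₀ ℝ) →ₗ[ℝ] M, C z = ∑ u ∈ z.support, z u • C (Finsupp.single u 1) := by
    intro C
    have h3 := congrArg C h1
    rw [map_sum] at h3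
    rw [h3]
    exact sum_congr rfl fun u _ => map_smul C _ _
  rw [h2 A, h2 B]
  refine sum_congr rfl fun u hu => ?_
  rw [h u (Finsupp.mem_support_iff.1 hu)]

private theorem cmb_In (hY : IsGeomS L Y) (l : L) {s : Finset U} (hs : In Y s) : In Y (l • s) := by
  rcases hs with hs | rfl
  · exact Or.inl (hY.mem l s hs)
  · exact Or.inr (Finset.smul_finset_empty l)

theorem Ctr.comp (hX : IsGeomS G X) (hY : IsGeomS L Y) {f : G → L} {f' : L → K} {Φ : Finset V → Finset U →₀ ℝ}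
    {Ψ : Finset U → Finset W →₀ ℝ} (hΦ : Ctr f X Y 0 0 Φ) (hΨ : Ctr f' Y Z 0 0 Ψ) :
    Ctr (fun g => f' (f g)) X Z 0 0 (fun t => lc Ψ (Φ t)) := by
  refine ⟨fun t ht s hs => ?_, fun t ht => ?_, fun k => ?_⟩
  · obtain ⟨u, hu1, hu2⟩ := lc_ne hs
    obtain ⟨h1, h2⟩ := hΦ.mem t ht u hu1
    obtain ⟨h3, h4⟩ := hΨ.mem u h1 s hu2
    exact ⟨h3, by omega⟩
  · obtain ⟨F, hF⟩ := hΦ.near t ht
    have h1 : ∀ s₀ : Finset U, ∃ F' : Finset (Finset W), In Y s₀ → ∀ l : L, ∀ w, Ψ (l • s₀) w ≠ 0 →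
        ∃ w₀ ∈ F', w = f' l • w₀ := by
      intro s₀
      by_cases h : In Y s₀
      · obtain ⟨F', hF'⟩ := hΨ.near s₀ h
        exact ⟨F', fun _ => hF'⟩
      · exact ⟨∅, fun h' => absurd h' h⟩
    choose F' hF' using h1
    refine ⟨F.biUnion F', fun g w hw => ?_⟩
    obtain ⟨u, hu1, hu2⟩ := lc_ne hw
    obtain ⟨s₀, hs₀, rfl⟩ := hF g u hu1
    have h2 : In Y s₀ := by
      have h3 := cmb_In hY (f g)⁻¹ (hΦ.mem (g • t) (cmb_In hX g ht) _ hu1).1
      rwa [inv_smul_smul] at h3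
    obtain ⟨w₀, hw₀, h4⟩ := hF' s₀ h2 (f g) w hu2
    exact ⟨w₀, mem_biUnion.2 ⟨s₀, hs₀, hw₀⟩, h4⟩
  · obtain ⟨C, hC⟩ := hΦ.bdd k
    obtain ⟨C', hC'⟩ := hΨ.bdd k
    obtain ⟨N, hN⟩ := hΦ.supp_card hX k
    refine ⟨N * (|C| * |C'|), fun t ht hk s => ?_⟩
    rw [lc_apply]
    refine (abs_sum_le_sum_abs _ _).trans ?_
    have h1 : ∀ u ∈ (Φ t).support, |Φ t u * Ψ u s| ≤ |C| * |C'| := by
      intro u hu
      obtain ⟨h2, h3⟩ := hΦ.mem t ht u (Finsupp.mem_support_iff.1 hu)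
      rw [abs_mul]
      exact mul_le_mul ((hC t ht hk u).trans (le_abs_self C)) ((hC' u h2 (by omega) s).trans (le_abs_self C'))
        (abs_nonneg _) (abs_nonneg _)
    refine (sum_le_sum h1).trans ?_
    rw [sum_const, nsmul_eq_mul]
    exact mul_le_mul_of_nonneg_right (by exact_mod_cast hN t ht hk) (by positivity)

theorem ChM.comp {f : G → L} {r : V → V → Prop} {r' : U → U → Prop} {r'' : W → W → Prop} {Φ : Finset V → Finset U →₀ ℝ}
    {Ψ : Finset U → Finset W →₀ ℝ} (hΦ : Ctr f X Y 0 0 Φ) (h₁ : ChM r r' X Φ) (h₂ : ChM r' r'' Y Ψ) :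
    ChM r r'' X (fun t => lc Ψ (Φ t)) := by
  intro t ht
  have h1 : bdF r'' (lc Ψ (Φ t)) = lc Ψ (bdF r' (Φ t)) := by
    refine cmb_ext ((bdF r'').comp (lc Ψ)) ((lc Ψ).comp (bdF r')) (Φ t) fun u hu => ?_
    rw [LinearMap.comp_apply, LinearMap.comp_apply, lc_single]
    exact h₂ u (hΦ.mem t ht u hu).1
  have h2 : ∀ z : Finset V →₀ ℝ, lc (fun t => lc Ψ (Φ t)) z = lc Ψ (lc Φ z) := by
    intro z
    refine cmb_ext (lc (fun t => lc Ψ (Φ t))) ((lc Ψ).comp (lc Φ)) z fun u _ => ?_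
    rw [LinearMap.comp_apply, lc_single, lc_single]
  rw [h1, h2, h₁ t ht]

end Pool.Agent.PQ
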