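import Pool.Agent.S11.EdDefs
import Pool.Agent.S11.EdOrd
import Pool.Agent.S11.Fin
import Pool.Agent.H10.CI.CDefs

/-!
# Project PQ (quasi-isometry invariance of the vanishing of the reduced `ℓ²`-homology): definitions

`bdF r`: the augmented boundary of the finite real chains (orientations by the order `r`); `In X s`: `s` is a simplex of
`X` or empty; `AcR X`: the augmented real chain complex of `X` is exact; `lc Φ`: linear extension; `Ctr f X Y a b Φ`:
`Φ` sends the simplices of `X` to finite chains of `Y`, it is controlled by the map `f` between the groups, and lowers the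
number of vertices by `a - b`; `op Φ`: the operator on infinite chains.
-/

set_option autoImplicit false
set_option linter.unusedSectionVars false

open Finset Pointwise

noncomputable section

namespace Pool.Agent.PQ

open Pool.Agent.S11 Pool.Agent.H10.CI

section

variable {U V : Type} [DecidableEq U] [DecidableEq V]

/-- the augmented boundary of the finite real chains -/
def bdF (r : U → U → Prop) : (Finset U →₀ ℝ) →ₗ[ℝ] (Finset U →₀ ℝ) :=
  Finsupp.linearCombination ℝ fun t => ∑ v ∈ t, (sgR r (t.erase v) v : ℝ) • Finsupp.single (t.erase v) (1 : ℝ)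

/-- a simplex of `X` or the empty set -/
def In (X : Set (Finset U)) (s : Finset U) : Prop := s ∈ X ∨ s = ∅

/-- the augmented real chain complex of the simplicial complex `X` is exact; the orientations come from a total order of
the vertices -/
def AcR (X : Set (Finset U)) : Prop :=
  ∀ r : U → U → Prop, IsStrictTotalOrder U r → ∀ z : Finset U →₀ ℝ, (∀ s, z s ≠ 0 → In X s) → bdF r z = 0 →
    ∃ w : Finset U →₀ ℝ, (∀ s, w s ≠ 0 → s ∈ X) ∧ bdF r w = z

/-- linear extension -/
def lc (Φ : Finset V → Finset U →₀ ℝ) : (Finset V →₀ ℝ) →ₗ[ℝ] (Finset U →₀ ℝ) := Finsupp.linearCombination ℝ Φ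

/-- the operator on infinite chains -/
def op (Φ : Finset V → Finset U →₀ ℝ) (z : Finset V → ℝ) (s : Finset U) : ℝ := ∑ᶠ t : Finset V, z t * Φ t s

end

section

variable {U V G L : Type} [DecidableEq U] [DecidableEq V] [Group G] [Group L] [MulAction G V] [MulAction L U]

/-- coarsely Lipschitz -/
def Lip (f : G → L) : Prop := ∀ a : G, {x : L | ∃ g : G, (f g)⁻¹ * f (g * a) = x}.Finite

/-- controlled families of finite chains of `Y`, indexed by the simplices of `X` -/
structure Ctr (f : G → L) (X : Set (Finset V)) (Y : Set (Finset U)) (a b : ℕ) (Φ : Finset V → Finset U →₀ ℝ) :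
    Prop where
  mem : ∀ t, In X t → ∀ s, Φ t s ≠ 0 → In Y s ∧ s.card + a = t.card + b
  near : ∀ t, In X t → ∃ F : Finset (Finset U), ∀ g : G, ∀ s, Φ (g • t) s ≠ 0 → ∃ s₀ ∈ F, s = f g • s₀
  bdd : ∀ k : ℕ, ∃ C : ℝ, ∀ t, In X t → t.card = k → ∀ s, |Φ t s| ≤ C

/-- chain maps -/
def ChM (r : V → V → Prop) (r' : U → U → Prop) (X : Set (Finset V)) (Φ : Finset V → Finset U →₀ ℝ) : Prop :=
  ∀ t, In X t → bdF r' (Φ t) = lc Φ (bdF r (Finsupp.single t 1))

end

end Pool.Agent.PQ
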