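import Pool.Agent.PQ.Defs

/-!
# Project PQ: the coarse inverse

PROOF.  For `l : L` choose `f' l : G` with `(f (f' l))⁻¹ * l ∈ F`.  `near`: `l⁻¹ * f (f' l) ∈ F⁻¹`.  `lip`: for `m : L` the element `a = (f' l)⁻¹ * f' (l * m)` satisfies
`(f g)⁻¹ * f (g * a) = ((f (f' l))⁻¹ * l) * m * ((f (f' (l * m)))⁻¹ * (l * m))⁻¹ ∈ F * m * F⁻¹` (finite) for `g = f' l`, so `a` is in a finite set (`CoarseEmb.prop_fin`).  `prop`: if `(f' l)⁻¹ * f' (l * m) = x` then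
`(f (f' l))⁻¹ * f (f' l * x)` is in a finite set (`hf.lip x`) and `m = ((f (f' l))⁻¹ * l)⁻¹ * that * ((f (f' (l * m)))⁻¹ * (l * m))` is in a finite set.
-/

set_option autoImplicit false
set_option linter.unusedSectionVars false

open Finset Pointwise

noncomputable section

namespace Pool.Agent.PQ

open Pool.Agent.S11 Pool.Agent.H10.CI

theorem exists_inv {G L : Type} [Group G] [Group L] {f : G → L} (hf : CoarseEmb f)
    (hs : ∃ F : Finset L, ∀ l : L, ∃ g : G, (f g)⁻¹ * l ∈ F) :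
    ∃ f' : L → G, CoarseEmb f' ∧ {x : L | ∃ l, (l : L)⁻¹ * f (f' l) = x}.Finite := by
  classical
  obtain ⟨F, hF⟩ := hs
  choose f' hf' using hF
  refine ⟨f', ⟨fun m => ?_, fun x => ?_⟩, ?_⟩
  · refine (hf.prop_fin (E := (fun p : L × L => p.1 * m * p.2⁻¹) '' ((F : Set L) ×ˢ (F : Set L)))
      ((F.finite_toSet.prod F.finite_toSet).image _)).subset ?_
    rintro a ⟨l, rfl⟩
    refine ⟨f' l, ⟨((f (f' l))⁻¹ * l, (f (f' (l * m)))⁻¹ * (l * m)), ⟨hf' l, hf' (l * m)⟩, ?_⟩⟩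
    change (f (f' l))⁻¹ * l * m * ((f (f' (l * m)))⁻¹ * (l * m))⁻¹ = _
    rw [mul_inv_cancel_left]
    group
  · refine (((F.finite_toSet.prod (hf.lip x)).prod F.finite_toSet).image
      (fun p : (L × L) × L => p.1.1⁻¹ * p.1.2 * p.2)).subset ?_
    rintro m ⟨l, hl⟩
    refine ⟨(((f (f' l))⁻¹ * l, (f (f' l))⁻¹ * f (f' l * x)), (f (f' (l * m)))⁻¹ * (l * m)),
      ⟨⟨hf' l, ⟨f' l, rfl⟩⟩, hf' (l * m)⟩, ?_⟩
    change ((f (f' l))⁻¹ * l)⁻¹ * ((f (f' l))⁻¹ * f (f' l * x)) * ((f (f' (l * m)))⁻¹ * (l * m)) = m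
    rw [← hl, mul_inv_cancel_left]
    group
  · refine (F.finite_toSet.image (fun x : L => x⁻¹)).subset ?_
    rintro x ⟨l, rfl⟩
    refine ⟨(f (f' l))⁻¹ * l, hf' l, ?_⟩
    change ((f (f' l))⁻¹ * l)⁻¹ = _
    rw [mul_inv_rev, inv_inv]

theorem CoarseEmb.lip' {G L : Type} [Group G] [Group L] {f : G → L} (hf : CoarseEmb f) : Lip f := hf.lip

theorem lip_id {G : Type} [Group G] : Lip (fun g : G => g) := by
  intro a
  refine (Set.finite_singleton a).subset ?_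
  rintro x ⟨g, rfl⟩
  exact inv_mul_cancel_left g a

theorem lip_comp {G L K : Type} [Group G] [Group L] [Group K] {f : G → L} {f' : L → K} (hf : Lip f) (hf' : Lip f') :
    Lip (fun g => f' (f g)) := by
  intro a
  refine ((hf a).biUnion fun y _ => hf' y).subset ?_
  rintro x ⟨g, rfl⟩
  refine Set.mem_biUnion (x := (f g)⁻¹ * f (g * a)) ⟨g, rfl⟩ ⟨f g, ?_⟩
  rw [mul_inv_cancel_left]

end Pool.Agent.PQ
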