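import Pool.Agent.PQ.Defs

/-!
# Project PQ: local finiteness and elementary properties of the boundary of infinite chains
-/

set_option autoImplicit false
set_option linter.unusedSectionVars false

open Finset Pointwise

noncomputable section

namespace Pool.Agent.PQ

open Pool.Agent.S11 Pool.Agent.H10.CI

section

variable {V G : Type} [DecidableEq V] [Group G] [MulAction G V] {X : Set (Finset V)}

/-- finitely many elements move a simplex to a given set -/
theorem geom_coset (hX : IsGeomS G X) {s : Finset V} (hs : s ∈ X) (t : Finset V) : {g : G | g • s = t}.Finite := by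
  by_cases h : ∃ g : G, g • s = t
  · obtain ⟨g₀, hg₀⟩ := h
    have h1 := (hX.proper s hs).image fun g => g₀ * g
    refine h1.subset ?_
    intro g hg
    have hg' : g • s = t := hg
    refine ⟨g₀⁻¹ * g, ?_, by group⟩
    show (g₀⁻¹ * g) • s = s
    rw [mul_smul, hg', ← hg₀, inv_smul_smul]
  · have h2 : {g : G | g • s = t} = ∅ := Set.eq_empty_of_forall_notMem fun g hg => h ⟨g, hg⟩
    rw [h2]
    exact Set.finite_empty

/-- a simplex has finitely many cofaces -/
theorem geom_cofaces (hX : IsGeomS G X) {s : Finset V} (hs : s ∈ X) : {t | t ∈ X ∧ s ⊆ t}.Finite := by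
  obtain ⟨F, hF⟩ := hX.cocompact
  have h1 : ∀ f : Finset V, {g : G | g • s ⊆ f}.Finite := by
    intro f
    have h3 : {g : G | g • s ⊆ f} ⊆ ⋃ s' ∈ (f.powerset : Set (Finset V)), {g : G | g • s = s'} := by
      intro g hg
      simp only [Set.mem_iUnion]
      exact ⟨g • s, Finset.mem_coe.2 (Finset.mem_powerset.2 hg), rfl⟩
    exact ((Finset.finite_toSet _).biUnion fun s' _ => geom_coset hX hs s').subset h3
  have h2 : {t | t ∈ X ∧ s ⊆ t} ⊆ ⋃ f ∈ (↑F : Set (Finset V)), (fun g : G => g⁻¹ • f) '' {g : G | g • s ⊆ f} := by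
    rintro t ⟨ht, hst⟩
    obtain ⟨g, hg⟩ := hF t ht
    simp only [Set.mem_iUnion]
    refine ⟨g • t, Finset.mem_coe.2 hg, g, ?_, inv_smul_smul g t⟩
    exact Finset.smul_finset_subset_smul_finset hst
  exact (Set.Finite.biUnion (Finset.finite_toSet F) fun f _ => (h1 f).image _).subset h2

/-- the terms of the boundary at a simplex -/
theorem bdR_fin (hX : IsGeomS G X) {z : Finset V → ℝ} (hz : ∀ t, z t ≠ 0 → t ∈ X) {s : Finset V} (hs : s ∈ X) :
    {v | v ∉ s ∧ z (insert v s) ≠ 0}.Finite := by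
  refine Set.Finite.of_finite_image (f := fun v => insert v s) ((geom_cofaces hX hs).subset ?_) ?_
  · rintro _ ⟨v, ⟨hv, hz'⟩, rfl⟩
    exact ⟨hz _ hz', subset_insert v s⟩
  · rintro v ⟨hv, _⟩ w ⟨hw, _⟩ hvw
    have h1 : v ∈ insert w s := by
      have h2 : insert v s = insert w s := hvw
      rw [← h2]
      exact mem_insert_self v s
    rcases mem_insert.1 h1 with h | h
    · exact h
    · exact absurd h hv

theorem bdR_add (hX : IsGeomS G X) (r : V → V → Prop) {z z' : Finset V → ℝ} (hz : ∀ t, z t ≠ 0 → t ∈ X)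
    (hz' : ∀ t, z' t ≠ 0 → t ∈ X) {s : Finset V} (hs : s ∈ X) :
    bdR r (fun t => z t + z' t) s = bdR r z s + bdR r z' s := by
  unfold bdR
  rw [← finsum_mem_add_distrib' (f := fun v => (sgR r s v : ℝ) * z (insert v s)) (g := fun v => (sgR r s v : ℝ) * z' (insert v s))]
  · refine finsum_mem_congr rfl fun v _ => ?_
    ring
  · refine (bdR_fin hX hz hs).subset ?_
    rintro v ⟨hv, h1⟩
    exact ⟨hv, fun h0 => h1 (by
      show (sgR r s v : ℝ) * z (insert v s) = 0
      rw [h0, mul_zero])⟩
  · refine (bdR_fin hX hz' hs).subset ?_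
    rintro v ⟨hv, h1⟩
    exact ⟨hv, fun h0 => h1 (by
      show (sgR r s v : ℝ) * z' (insert v s) = 0
      rw [h0, mul_zero])⟩

/-- the boundary is supported on the faces -/
theorem bdR_ne {r : V → V → Prop} {z : Finset V → ℝ} {s : Finset V} (h : bdR r z s ≠ 0) :
    ∃ v, v ∉ s ∧ z (insert v s) ≠ 0 := by
  by_contra h1
  push Not at h1
  refine h ?_
  unfold bdR
  refine finsum_mem_eq_zero_of_forall_eq_zero fun v hv => ?_
  rw [h1 v hv, mul_zero]

end

end Pool.Agent.PQ
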