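import Mathlib

/-!
# Project PQ: the Schur test

PROOF.  For every `s`: `(∑ᶠ t, z t * a t s)² ≤ N * ∑ (z t)² (a t s)² ≤ N C² ∑ (z t)²`, sums over the at most `N` elements `t` with `a t s ≠ 0` (Cauchy-Schwarz, `inner_mul_le_norm_mul_norm` or `Finset.sum_mul_sq_le_sq_mul_sq`,
`sq_sum_le_card_mul_sum_sq`).  Sum over `s` in a finite set: every `t` is counted at most `N` times: at most `N C² N ∑' t, z t ^ 2`.  (`summable_of_sum_le`, `Real.tsum_le_of_sum_le` or `tsum_le_of_sum_le'`.)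
-/

set_option autoImplicit false
set_option linter.unusedSectionVars false

open Finset

noncomputable section

namespace Pool.Agent.PQ

theorem schur {T S : Type} (a : T → S → ℝ) {C : ℝ} {N : ℕ} (hC : ∀ t s, |a t s| ≤ C)
    (hrow : ∀ t, {s | a t s ≠ 0}.Finite ∧ {s | a t s ≠ 0}.ncard ≤ N)
    (hcol : ∀ s, {t | a t s ≠ 0}.Finite ∧ {t | a t s ≠ 0}.ncard ≤ N) {z : T → ℝ} (hz : Summable fun t => z t ^ 2) :
    (Summable fun s => (∑ᶠ t, z t * a t s) ^ 2) ∧ ∑' s, (∑ᶠ t, z t * a t s) ^ 2 ≤ (N * C) ^ 2 * ∑' t, z t ^ 2 := by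
  classical
  let F : S → Finset T := fun s => (hcol s).1.toFinset
  have hF : ∀ s t, t ∈ F s ↔ a t s ≠ 0 := fun s t => (hcol s).1.mem_toFinset
  have hFc : ∀ s, ((F s).card : ℝ) ≤ N := by
    intro s
    have h1 := (hcol s).2
    rw [Set.ncard_eq_toFinset_card _ (hcol s).1] at h1
    exact_mod_cast h1
  -- one row
  have h1 : ∀ s, (∑ᶠ t, z t * a t s) ^ 2 ≤ N * C ^ 2 * ∑ t ∈ F s, z t ^ 2 := by
    intro s
    have h2 : ∑ᶠ t, z t * a t s = ∑ t ∈ F s, z t * a t s := by
      refine finsum_eq_sum_of_support_subset _ ?_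
      intro t ht
      rw [Finset.mem_coe, hF]
      intro h0
      apply ht
      show z t * a t s = 0
      rw [h0, mul_zero]
    rw [h2]
    refine (sq_sum_le_card_mul_sum_sq (s := F s) (f := fun t => z t * a t s)).trans ?_
    have h3 : ∑ t ∈ F s, (z t * a t s) ^ 2 ≤ C ^ 2 * ∑ t ∈ F s, z t ^ 2 := by
      rw [mul_sum]
      refine sum_le_sum fun t _ => ?_
      rw [mul_pow, mul_comm]
      refine mul_le_mul_of_nonneg_right ?_ (sq_nonneg _)
      have h4 := hC t s
      rw [← sq_abs]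
      exact pow_le_pow_left₀ (abs_nonneg _) h4 2
    rw [mul_assoc]
    refine mul_le_mul (hFc s) h3 (sum_nonneg fun t _ => sq_nonneg _) (Nat.cast_nonneg _)
  -- finitely many rows
  have h5 : ∀ S' : Finset S, ∑ s ∈ S', ∑ t ∈ F s, z t ^ 2 ≤ N * ∑' t, z t ^ 2 := by
    intro S'
    have h6 : ∀ s ∈ S', ∑ t ∈ F s, z t ^ 2 = ∑ t ∈ S'.biUnion F, if a t s ≠ 0 then z t ^ 2 else 0 := by
      intro s hs
      rw [← sum_filter]
      refine sum_congr ?_ fun _ _ => rfl
      ext t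
      rw [mem_filter, mem_biUnion, hF]
      constructor
      · intro h7
        exact ⟨⟨s, hs, (hF s t).2 h7⟩, h7⟩
      · exact fun h7 => h7.2
    rw [sum_congr rfl h6, sum_comm]
    have h8 : ∀ t ∈ S'.biUnion F, (∑ s ∈ S', if a t s ≠ 0 then z t ^ 2 else 0) ≤ N * z t ^ 2 := by
      intro t _
      rw [← sum_filter, sum_const, nsmul_eq_mul]
      refine mul_le_mul_of_nonneg_right ?_ (sq_nonneg _)
      have h9 := (hrow t).2
      rw [Set.ncard_eq_toFinset_card _ (hrow t).1] at h9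
      have h10 : (S'.filter fun s => a t s ≠ 0).card ≤ (hrow t).1.toFinset.card := by
        refine card_le_card fun s hs => ?_
        rw [Set.Finite.mem_toFinset]
        exact (mem_filter.1 hs).2
      exact_mod_cast h10.trans h9
    refine (sum_le_sum h8).trans ?_
    rw [← mul_sum]
    exact mul_le_mul_of_nonneg_left (hz.sum_le_tsum _ fun t _ => sq_nonneg _) (Nat.cast_nonneg _)
  have h11 : ∀ S' : Finset S, ∑ s ∈ S', (∑ᶠ t, z t * a t s) ^ 2 ≤ (N * C) ^ 2 * ∑' t, z t ^ 2 := by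
    intro S'
    refine (sum_le_sum fun s _ => h1 s).trans ?_
    rw [← mul_sum]
    refine (mul_le_mul_of_nonneg_left (h5 S') (mul_nonneg (Nat.cast_nonneg _) (sq_nonneg _))).trans (le_of_eq ?_)
    ring
  have h12 : Summable fun s => (∑ᶠ t, z t * a t s) ^ 2 := summable_of_sum_le (fun s => sq_nonneg _) h11
  exact ⟨h12, h12.tsum_le_of_sum_le h11⟩

end Pool.Agent.PQ
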