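import Pool.Agent.PQ.Row
import Pool.Agent.PQ.Sch

/-!
# Project PQ: the operators on the square summable chains

PROOFS.  `op_l2`: `schur` with `a t s = Φ t s` if `In X t` and `t.card = k`, and `0` otherwise; `Ctr.supp_card`, `Ctr.cols`, `Ctr.bdd`; the support of `op Φ z`: some `t ∈ X` with `t.card = k`, `Φ t s ≠ 0`, so `In Y s` and `s.card = k + b`; `s ≠ ∅` since `k ≥ 1` (`t` is a simplex of `X`, nonempty).
`op_sub`: finite sums (`Ctr.cols`).
-/

set_option autoImplicit false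
set_option linter.unusedSectionVars false

open Finset Pointwise

noncomputable section

namespace Pool.Agent.PQ

open Pool.Agent.S11 Pool.Agent.H10.CI

variable {U V W G L K : Type} [DecidableEq U] [DecidableEq V] [DecidableEq W] [Group G] [Group L] [Group K]
  [MulAction G V] [MulAction L U] [MulAction K W] {X : Set (Finset V)} {Y : Set (Finset U)} {Z : Set (Finset W)}

/-- the matrix of the operator on the chains with `k` vertices -/
private def mat (X : Set (Finset V)) (k : ℕ) (Φ : Finset V → Finset U →₀ ℝ) (t : Finset V) (s : Finset U) : ℝ :=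
  open Classical in if In X t ∧ t.card = k then Φ t s else 0

private lemma mat_ne {k : ℕ} {Φ : Finset V → Finset U →₀ ℝ} {t : Finset V} {s : Finset U}
    (h : mat X k Φ t s ≠ 0) : In X t ∧ t.card = k ∧ Φ t s ≠ 0 := by
  classical
  unfold mat at h
  by_cases h1 : In X t ∧ t.card = k
  · rw [if_pos h1] at h
    exact ⟨h1.1, h1.2, h⟩
  · rw [if_neg h1] at h
    exact absurd rfl h

private lemma mat_mul {k : ℕ} {Φ : Finset V → Finset U →₀ ℝ} {z : Finset V → ℝ} (hz : IsL2Ch X k z)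
    (t : Finset V) (s : Finset U) : z t * Φ t s = z t * mat X k Φ t s := by
  classical
  by_cases h : z t = 0
  · rw [h, zero_mul, zero_mul]
  · obtain ⟨h1, h2⟩ := hz.supp t h
    unfold mat
    rw [if_pos ⟨Or.inl h1, h2⟩]

private lemma op_mat {k : ℕ} {Φ : Finset V → Finset U →₀ ℝ} {z : Finset V → ℝ} (hz : IsL2Ch X k z)
    (s : Finset U) : op Φ z s = ∑ᶠ t : Finset V, z t * mat X k Φ t s := by
  unfold op
  exact finsum_congr fun t => mat_mul hz t s

theorem op_l2 (hX : IsGeomS G X) (hY : IsGeomS L Y) {f : G → L} (hf : CoarseEmb f) {b : ℕ}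
    {Φ : Finset V → Finset U →₀ ℝ} (hΦ : Ctr f X Y 0 b Φ) (k : ℕ) :
    ∃ C : ℝ, 0 ≤ C ∧ ∀ z, IsL2Ch X k z → IsL2Ch Y (k + b) (op Φ z) ∧ ∑' s, op Φ z s ^ 2 ≤ C * ∑' t, z t ^ 2 := by
  classical
  obtain ⟨N₁, hN₁⟩ := Ctr.supp_card hX hΦ k
  obtain ⟨N₂, hN₂⟩ := Ctr.cols hX hY hf hΦ k
  obtain ⟨C₀, hC₀⟩ := hΦ.bdd k
  set C : ℝ := max C₀ 0 with hC
  set N : ℕ := max N₁ N₂ with hN
  refine ⟨((N : ℝ) * C) ^ 2, sq_nonneg _, fun z hz => ?_⟩
  have hb : ∀ t s, |mat X k Φ t s| ≤ C := by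
    intro t s
    by_cases h : mat X k Φ t s = 0
    · rw [h, abs_zero]
      exact le_max_right _ _
    · obtain ⟨h1, h2, -⟩ := mat_ne h
      have h3 : mat X k Φ t s = Φ t s := by
        unfold mat
        rw [if_pos ⟨h1, h2⟩]
      rw [h3]
      exact (hC₀ t h1 h2 s).trans (le_max_left _ _)
  have hrow : ∀ t, {s | mat X k Φ t s ≠ 0}.Finite ∧ {s | mat X k Φ t s ≠ 0}.ncard ≤ N := by
    intro t
    by_cases h : In X t ∧ t.card = k
    · have hsub : {s | mat X k Φ t s ≠ 0} ⊆ ((Φ t).support : Set (Finset U)) := by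
        intro s hs
        rw [Finset.mem_coe, Finsupp.mem_support_iff]
        exact (mat_ne hs).2.2
      refine ⟨(Finset.finite_toSet _).subset hsub, ?_⟩
      refine (Set.ncard_le_ncard hsub (Finset.finite_toSet _)).trans ?_
      rw [Set.ncard_coe_finset]
      exact (hN₁ t h.1 h.2).trans (le_max_left _ _)
    · have hempty : {s | mat X k Φ t s ≠ 0} = ∅ := by
        rw [Set.eq_empty_iff_forall_notMem]
        intro s hs
        exact h ⟨(mat_ne hs).1, (mat_ne hs).2.1⟩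
      rw [hempty]
      exact ⟨Set.finite_empty, by rw [Set.ncard_empty]; exact Nat.zero_le _⟩
  have hcol : ∀ s, {t | mat X k Φ t s ≠ 0}.Finite ∧ {t | mat X k Φ t s ≠ 0}.ncard ≤ N := by
    intro s
    obtain ⟨h1, h2⟩ := hN₂ s
    have hsub : {t | mat X k Φ t s ≠ 0} ⊆ {t | In X t ∧ t.card = k ∧ Φ t s ≠ 0} := fun t ht => mat_ne ht
    exact ⟨h1.subset hsub, ((Set.ncard_le_ncard hsub h1).trans h2).trans (le_max_right _ _)⟩
  obtain ⟨h1, h2⟩ := schur (mat X k Φ) hb hrow hcol hz.l2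
  have he : (fun s => op Φ z s ^ 2) = fun s => (∑ᶠ t, z t * mat X k Φ t s) ^ 2 := by
    funext s
    rw [op_mat hz s]
  refine ⟨⟨?_, ?_⟩, ?_⟩
  · intro s hs
    rw [op_mat hz s] at hs
    obtain ⟨t, ht⟩ : ∃ t, z t * mat X k Φ t s ≠ 0 := by
      by_contra hcon
      push Not at hcon
      apply hs
      rw [finsum_congr hcon, finsum_zero]
    have hzt : z t ≠ 0 := left_ne_zero_of_mul ht
    obtain ⟨h3, h4, h5⟩ := mat_ne (right_ne_zero_of_mul ht)
    obtain ⟨h6, h7⟩ := hΦ.mem t h3 s h5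
    have h8 : s.card = k + b := by
      rw [add_zero, h4] at h7
      exact h7
    refine ⟨?_, h8⟩
    rcases h6 with h6 | h6
    · exact h6
    · exfalso
      have h9 := (hX.ne t (hz.supp t hzt).1).card_pos
      rw [h6, Finset.card_empty] at h8
      omega
  · rw [he]
    exact h1
  · rw [he]
    exact h2

theorem op_sub (hX : IsGeomS G X) (hY : IsGeomS L Y) {f : G → L} (hf : CoarseEmb f) {b : ℕ}
    {Φ : Finset V → Finset U →₀ ℝ} (hΦ : Ctr f X Y 0 b Φ) {k : ℕ} {z z' : Finset V → ℝ} (hz : IsL2Ch X k z)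
    (hz' : IsL2Ch X k z') (s : Finset U) : op Φ (fun t => z t - z' t) s = op Φ z s - op Φ z' s := by
  classical
  obtain ⟨N₂, hN₂⟩ := Ctr.cols hX hY hf hΦ k
  obtain ⟨h1, -⟩ := hN₂ s
  have hfin : ∀ y : Finset V → ℝ, (∀ t, y t ≠ 0 → t ∈ X ∧ t.card = k) →
      (Function.support fun t => y t * Φ t s).Finite := by
    intro y hy
    refine h1.subset fun t ht => ?_
    have hyt : y t ≠ 0 := left_ne_zero_of_mul ht
    exact ⟨Or.inl (hy t hyt).1, (hy t hyt).2, right_ne_zero_of_mul ht⟩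
  unfold op
  rw [← finsum_sub_distrib (hfin z hz.supp) (hfin z' hz'.supp)]
  exact finsum_congr fun t => sub_mul _ _ _

theorem op_id {z : Finset V → ℝ} : op (fun t => Finsupp.single t (1 : ℝ)) z = z := by
  funext s
  unfold op
  rw [finsum_eq_single _ s]
  · rw [Finsupp.single_eq_same, mul_one]
  · intro t ht
    rw [Finsupp.single_eq_of_ne (by first | exact ht | exact ht.symm), mul_zero]

end Pool.Agent.PQ
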