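import Pool.Agent.PQ.Row
import Pool.Agent.PQ.Sch

/-!
# Project PQ: the operator of a composition

PROOF.  `op (lc Ψ ∘ Φ) z s = ∑ t, z t ∑ u, Φ t u Ψ u s`, all sums finite for fixed `s` (`Ctr.cols` for `Ψ` at `s` and the number `k` of vertices, then for `Φ` at the finitely many `u`; `u` with `Φ t u ≠ 0` for some `t` in the support of `z` satisfies `In Y u`, `u.card = k`).
-/

set_option autoImplicit false
set_option linter.unusedSectionVars false

open Finset Pointwise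

noncomputable section

namespace Pool.Agent.PQ

open Pool.Agent.S11 Pool.Agent.H10.CI

variable {U V W G L K : Type} [DecidableEq U] [DecidableEq V] [DecidableEq W] [Group G] [Group L] [Group K]
  [MulAction G V] [MulAction L U] [MulAction K W] {X : Set (Finset V)} {Y : Set (Finset U)} {Z : Set (Finset W)}

theorem op_comp (hX : IsGeomS G X) (hY : IsGeomS L Y) (hZ : IsGeomS K Z) {f : G → L} (hf : CoarseEmb f) {f' : L → K}
    (hf' : CoarseEmb f') {Φ : Finset V → Finset U →₀ ℝ} {Ψ : Finset U → Finset W →₀ ℝ} (hΦ : Ctr f X Y 0 0 Φ)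
    (hΨ : Ctr f' Y Z 0 0 Ψ) {k : ℕ} {z : Finset V → ℝ} (hz : IsL2Ch X k z) :
    op (fun t => lc Ψ (Φ t)) z = op Ψ (op Φ z) := by
  classical
  obtain ⟨N, hN⟩ := hΨ.cols hY hZ hf' k
  obtain ⟨M, hM⟩ := hΦ.cols hX hY hf k
  funext s
  let U₀ : Finset (Finset U) := (hN s).1.toFinset
  have hU₀ : ∀ u, u ∈ U₀ ↔ In Y u ∧ u.card = k ∧ Ψ u s ≠ 0 := fun u => (hN s).1.mem_toFinset
  let T₀ : Finset (Finset V) := U₀.biUnion fun u => (hM u).1.toFinset
  have hT₀ : ∀ t u, u ∈ U₀ → In X t → t.card = k → Φ t u ≠ 0 → t ∈ T₀ := fun t u hu h1 h2 h3 =>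
    mem_biUnion.2 ⟨u, hu, (hM u).1.mem_toFinset.2 ⟨h1, h2, h3⟩⟩
  have hY' : ∀ t u, z t ≠ 0 → Φ t u ≠ 0 → In Y u ∧ u.card = k := by
    intro t u h1 h2
    have h3 := hz.supp t h1
    have h4 := hΦ.mem t (Or.inl h3.1) u h2
    refine ⟨h4.1, ?_⟩
    have h5 := h4.2
    omega
  -- the left hand side
  have e1 : ∀ t, z t * (lc Ψ (Φ t)) s = ∑ u ∈ U₀, z t * Φ t u * Ψ u s := by
    intro t
    by_cases h0 : z t = 0
    · rw [h0, zero_mul]
      exact (sum_eq_zero fun u _ => by rw [zero_mul, zero_mul]).symm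
    · have e2 : (lc Ψ (Φ t)) s = ∑ u ∈ (Φ t).support, Φ t u * Ψ u s := by
        rw [lc, Finsupp.linearCombination_apply, Finsupp.sum, Finsupp.finsetSum_apply]
        exact sum_congr rfl fun u _ => rfl
      have e3 : ∑ u ∈ (Φ t).support, Φ t u * Ψ u s = ∑ u ∈ U₀, Φ t u * Ψ u s := by
        have e4 : ∑ u ∈ (Φ t).support, Φ t u * Ψ u s = ∑ u ∈ (Φ t).support ∪ U₀, Φ t u * Ψ u s := by
          refine sum_subset subset_union_left fun u _ hu => ?_
          rw [Finsupp.notMem_support_iff.1 hu, zero_mul]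
        have e5 : ∑ u ∈ U₀, Φ t u * Ψ u s = ∑ u ∈ (Φ t).support ∪ U₀, Φ t u * Ψ u s := by
          refine sum_subset subset_union_right fun u hu hu' => ?_
          by_contra hne
          have h6 : Φ t u ≠ 0 := fun h => hne (by rw [h, zero_mul])
          have h7 : Ψ u s ≠ 0 := fun h => hne (by rw [h, mul_zero])
          have h8 := hY' t u h0 h6
          exact hu' ((hU₀ u).2 ⟨h8.1, h8.2, h7⟩)
        rw [e4, e5]
      rw [e2, e3, mul_sum]
      exact sum_congr rfl fun u _ => (mul_assoc _ _ _).symm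
  have e6 : op (fun t => lc Ψ (Φ t)) z s = ∑ t ∈ T₀, ∑ u ∈ U₀, z t * Φ t u * Ψ u s := by
    show ∑ᶠ t : Finset V, z t * (lc Ψ (Φ t)) s = _
    rw [finsum_congr e1]
    refine finsum_eq_sum_of_support_subset _ ?_
    intro t ht
    rw [Finset.mem_coe]
    obtain ⟨u, hu, hne⟩ := exists_ne_zero_of_sum_ne_zero ht
    have h1 : z t ≠ 0 := fun h => hne (by rw [h, zero_mul, zero_mul])
    have h2 : Φ t u ≠ 0 := fun h => hne (by rw [h, mul_zero, zero_mul])
    have h3 := hz.supp t h1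
    exact hT₀ t u hu (Or.inl h3.1) h3.2 h2
  -- the right hand side
  have e7 : ∀ u ∈ U₀, op Φ z u = ∑ t ∈ T₀, z t * Φ t u := by
    intro u hu
    show ∑ᶠ t : Finset V, z t * Φ t u = _
    refine finsum_eq_sum_of_support_subset _ ?_
    intro t ht
    rw [Finset.mem_coe]
    have h1 : z t ≠ 0 := left_ne_zero_of_mul ht
    have h2 : Φ t u ≠ 0 := right_ne_zero_of_mul ht
    have h3 := hz.supp t h1
    exact hT₀ t u hu (Or.inl h3.1) h3.2 h2
  have e8 : op Ψ (op Φ z) s = ∑ u ∈ U₀, op Φ z u * Ψ u s := by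
    show ∑ᶠ u : Finset U, op Φ z u * Ψ u s = _
    refine finsum_eq_sum_of_support_subset _ ?_
    intro u hu
    rw [Finset.mem_coe]
    have h1 : op Φ z u ≠ 0 := left_ne_zero_of_mul hu
    have h2 : Ψ u s ≠ 0 := right_ne_zero_of_mul hu
    have h3 : ∃ t, z t * Φ t u ≠ 0 := by
      by_contra hc
      push Not at hc
      apply h1
      show ∑ᶠ t : Finset V, z t * Φ t u = 0
      rw [finsum_congr hc, finsum_zero]
    obtain ⟨t, ht⟩ := h3
    have h4 := hY' t u (left_ne_zero_of_mul ht) (right_ne_zero_of_mul ht)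
    exact (hU₀ u).2 ⟨h4.1, h4.2, h2⟩
  rw [e6, e8, sum_comm]
  refine sum_congr rfl fun u hu => ?_
  rw [e7 u hu, sum_mul]

end Pool.Agent.PQ
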