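import Pool.Agent.PQ.Row
import Pool.Agent.PQ.Sch

/-!
# Project PQ: the operators commute with the boundary

PROOFS.  `op_bd`: `bdR r' (op Φ z) s = ∑ᶠ v ∉ s, sgR r' s v * ∑ᶠ t, z t * Φ t (insert v s) = ∑ᶠ t, z t * bdF r' (Φ t) s` (`bdF_apply`; finitely many `t` since `{t | Φ t (insert v s) ≠ 0}` is finite and the `insert v s` with a nonzero term are cofaces of `s` in `Y`: finitely many,
lemma: `IsGeomS` implies that a simplex has finitely many cofaces: a coface is `g • t₀` with `t₀` in a finite set, and `g⁻¹ • s` is one of the finitely many faces of `t₀`, so `g` is in a coset of a finite stabilizer; compare `cofaces_finite` in `S11`), `= ∑ᶠ t, z t * lc Φ (bdF r (single t 1)) s = ∑ᶠ t, z t ∑ v ∈ t, sgR r (t.erase v) v * Φ (t.erase v) s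
= ∑ᶠ t', (∑ᶠ v ∉ t', sgR r t' v * z (insert v t')) * Φ t' s` (again finite: `t'` in the finite set of the column of `s`, and the cofaces of `t'` in `X`; `t' = ∅` does not occur since `s` is not empty).
`op_hom`: the same computation for `Φ₁ t - Φ₂ t = bdF r' (h t) + lc h (bdF r (single t 1))`; the term `t' = ∅` vanishes since `h ∅ = 0`.
Suggestion: prove first two lemmas for a controlled `Φ` of type `(0, b)`: (1) for `s ∈ Y`: `bdR r' (op Φ z) s = ∑ᶠ t, z t * bdF r' (Φ t) s`; (2) for `s ∈ Y` and `Φ ∅ s = 0`: `op Φ (bdR r z) s = ∑ᶠ t, z t * lc Φ (bdF r (Finsupp.single t 1)) s`.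
-/

set_option autoImplicit false
set_option linter.unusedSectionVars false

open Finset Pointwise

noncomputable section

namespace Pool.Agent.PQ

open Pool.Agent.S11 Pool.Agent.H10.CI

variable {U V W G L K : Type} [DecidableEq U] [DecidableEq V] [DecidableEq W] [Group G] [Group L] [Group K]
  [MulAction G V] [MulAction L U] [MulAction K W] {X : Set (Finset V)} {Y : Set (Finset U)} {Z : Set (Finset W)}

private theorem OpC_fix (hX : IsGeomS G X) {s s' : Finset V} (hs : s ∈ X) : {g : G | g • s = s'}.Finite := by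
  rcases Set.eq_empty_or_nonempty {g : G | g • s = s'} with h | ⟨g₀, hg₀⟩
  · rw [h]
    exact Set.finite_empty
  · refine ((hX.proper s hs).image fun h => g₀ * h).subset ?_
    intro g hg
    refine ⟨g₀⁻¹ * g, ?_, mul_inv_cancel_left _ _⟩
    show (g₀⁻¹ * g) • s = s
    rw [mul_smul, (hg : g • s = s'), ← (hg₀ : g₀ • s = s'), inv_smul_smul]

/-- finitely many cofaces -/
private theorem OpC_cofaces (hX : IsGeomS G X) {s : Finset V} (hs : s ∈ X) : {t | t ∈ X ∧ s ⊆ t}.Finite := by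
  obtain ⟨F, hF⟩ := hX.cocompact
  have h1 : (⋃ f ∈ (F : Set (Finset V)), ⋃ s' ∈ (f.powerset : Set (Finset V)), {g : G | g • s = s'}).Finite :=
    F.finite_toSet.biUnion fun f _ => f.powerset.finite_toSet.biUnion fun s' _ => OpC_fix hX hs
  refine ((h1.prod F.finite_toSet).image fun p : G × Finset V => p.1⁻¹ • p.2).subset ?_
  rintro t ⟨ht, hst⟩
  obtain ⟨g, hg⟩ := hF t ht
  refine ⟨(g, g • t), ⟨?_, hg⟩, inv_smul_smul _ _⟩
  refine Set.mem_biUnion (x := g • t) (by exact_mod_cast hg) (Set.mem_biUnion (x := g • s) ?_ rfl)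
  rw [Finset.mem_coe, Finset.mem_powerset]
  exact Finset.smul_finset_subset_smul_finset hst

private theorem OpC_fin1 (hX : IsGeomS G X) (hY : IsGeomS L Y) {f : G → L} (hf : CoarseEmb f) {b : ℕ}
    {Φ : Finset V → Finset U →₀ ℝ} (hΦ : Ctr f X Y 0 b Φ) {k : ℕ} {z : Finset V → ℝ} (hz : IsL2Ch X k z)
    {s : Finset U} (hs : s ∈ Y) : {t | z t ≠ 0 ∧ ∃ v, v ∉ s ∧ Φ t (insert v s) ≠ 0}.Finite := by
  obtain ⟨N, hN⟩ := hΦ.cols hX hY hf k
  refine (Set.Finite.biUnion (OpC_cofaces hY hs) fun t' _ => (hN t').1).subset ?_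
  rintro t ⟨ht, v, hv, hne⟩
  have h1 := hz.supp t ht
  have h2 := (hΦ.mem t (Or.inl h1.1) _ hne).1
  have h3 : insert v s ∈ Y := h2.resolve_right (Finset.insert_ne_empty _ _)
  exact Set.mem_biUnion (show insert v s ∈ {t | t ∈ Y ∧ s ⊆ t} from ⟨h3, Finset.subset_insert _ _⟩)
    ⟨Or.inl h1.1, h1.2, hne⟩

private theorem OpC_sub1 {r' : U → U → Prop} {Φ : Finset V → Finset U →₀ ℝ} {z : Finset V → ℝ} {s : Finset U} :
    (Function.support fun t => z t * bdF r' (Φ t) s) ⊆ {t | z t ≠ 0 ∧ ∃ v, v ∉ s ∧ Φ t (insert v s) ≠ 0} := by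
  intro t ht
  have h1 : z t ≠ 0 := left_ne_zero_of_mul ht
  have h2 : bdF r' (Φ t) s ≠ 0 := right_ne_zero_of_mul ht
  obtain ⟨u, hu, v, hv, hs⟩ := bdF_ne h2
  refine ⟨h1, v, ?_, ?_⟩
  · rw [hs]
    exact Finset.notMem_erase _ _
  · rwa [hs, Finset.insert_erase hv]

private theorem OpC_one (hX : IsGeomS G X) (hY : IsGeomS L Y) {f : G → L} (hf : CoarseEmb f) {b : ℕ}
    {Φ : Finset V → Finset U →₀ ℝ} (hΦ : Ctr f X Y 0 b Φ) {k : ℕ} {z : Finset V → ℝ} (hz : IsL2Ch X k z)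
    {s : Finset U} (hs : s ∈ Y) (r' : U → U → Prop) :
    bdR r' (op Φ z) s = ∑ᶠ t, z t * bdF r' (Φ t) s := by
  have hfin := OpC_fin1 hX hY hf hΦ hz hs
  have hmem : ∀ t, t ∈ hfin.toFinset ↔ z t ≠ 0 ∧ ∃ v, v ∉ s ∧ Φ t (insert v s) ≠ 0 := fun t => by
    rw [Set.Finite.mem_toFinset]
    rfl
  generalize hfin.toFinset = T at hmem
  have e1 : bdR r' (op Φ z) s = bdR r' (fun u => (∑ t ∈ T, z t • Φ t) u) s := by
    refine finsum_mem_congr rfl fun v hv => ?_
    congr 1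
    show op Φ z (insert v s) = (∑ t ∈ T, z t • Φ t) (insert v s)
    rw [Finsupp.finsetSum_apply]
    refine finsum_eq_sum_of_support_subset _ ?_
    intro t ht
    rw [Finset.mem_coe, hmem]
    exact ⟨left_ne_zero_of_mul ht, v, hv, right_ne_zero_of_mul ht⟩
  rw [e1, ← bdF_apply r' (∑ t ∈ T, z t • Φ t) s, map_sum, Finsupp.finsetSum_apply]
  symm
  rw [finsum_eq_sum_of_support_subset (s := T)]
  · refine Finset.sum_congr rfl fun t _ => ?_
    rw [map_smul]
    rfl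
  · intro t ht
    rw [Finset.mem_coe, hmem]
    exact OpC_sub1 ht

private theorem OpC_fin2 (hX : IsGeomS G X) (hY : IsGeomS L Y) {f : G → L} (hf : CoarseEmb f) {b : ℕ}
    {Φ : Finset V → Finset U →₀ ℝ} (hΦ : Ctr f X Y 0 b Φ) {k : ℕ} {z : Finset V → ℝ} (hz : IsL2Ch X k z)
    {s : Finset U} (h0 : Φ ∅ s = 0) : {t | z t ≠ 0 ∧ ∃ v ∈ t, Φ (t.erase v) s ≠ 0}.Finite := by
  obtain ⟨N, hN⟩ := hΦ.cols hX hY hf (k - 1)
  have hD : {t' | t' ∈ X ∧ (In X t' ∧ t'.card = k - 1 ∧ Φ t' s ≠ 0)}.Finite :=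
    (hN s).1.subset fun t ht => ht.2
  refine (Set.Finite.biUnion hD fun t' ht' => OpC_cofaces hX ht'.1).subset ?_
  rintro t ⟨ht, v, hv, hne⟩
  have h1 := hz.supp t ht
  have h2 : t.erase v ≠ ∅ := by
    intro h
    rw [h] at hne
    exact hne h0
  have h3 : t.erase v ∈ X :=
    hX.down t h1.1 _ (Finset.erase_subset _ _) (Finset.nonempty_iff_ne_empty.2 h2)
  have h4 : (t.erase v).card = k - 1 := by rw [Finset.card_erase_of_mem hv, h1.2]
  exact Set.mem_biUnion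
    (show t.erase v ∈ {t' | t' ∈ X ∧ (In X t' ∧ t'.card = k - 1 ∧ Φ t' s ≠ 0)} from ⟨h3, Or.inl h3, h4, hne⟩)
    ⟨h1.1, Finset.erase_subset _ _⟩

private theorem OpC_sub2 {r : V → V → Prop} {Φ : Finset V → Finset U →₀ ℝ} {z : Finset V → ℝ} {s : Finset U} :
    (Function.support fun t => z t * lc Φ (bdF r (Finsupp.single t 1)) s) ⊆
      {t | z t ≠ 0 ∧ ∃ v ∈ t, Φ (t.erase v) s ≠ 0} := by
  intro t ht
  have h1 : z t ≠ 0 := left_ne_zero_of_mul ht
  have h2 : lc Φ (bdF r (Finsupp.single t 1)) s ≠ 0 := right_ne_zero_of_mul ht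
  obtain ⟨t', ht', hne⟩ := lc_ne h2
  obtain ⟨t'', ht'', v, hv, he⟩ := bdF_ne ht'
  have h3 : t'' = t := by
    by_contra hc
    exact ht'' (Finsupp.single_eq_of_ne hc)
  subst h3
  exact ⟨h1, v, hv, by rwa [← he]⟩

private theorem OpC_two (hX : IsGeomS G X) (hY : IsGeomS L Y) {f : G → L} (hf : CoarseEmb f) {b : ℕ}
    {Φ : Finset V → Finset U →₀ ℝ} (hΦ : Ctr f X Y 0 b Φ) {k : ℕ} {z : Finset V → ℝ} (hz : IsL2Ch X k z)
    {s : Finset U} (h0 : Φ ∅ s = 0) (r : V → V → Prop) :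
    op Φ (bdR r z) s = ∑ᶠ t, z t * lc Φ (bdF r (Finsupp.single t 1)) s := by
  have hfin := OpC_fin2 hX hY hf hΦ hz h0
  have hmem : ∀ t, t ∈ hfin.toFinset ↔ z t ≠ 0 ∧ ∃ v ∈ t, Φ (t.erase v) s ≠ 0 := fun t => by
    rw [Set.Finite.mem_toFinset]
    rfl
  generalize hfin.toFinset = T at hmem
  have hz0 : ∀ t, (∑ t ∈ T, z t • Finsupp.single t (1 : ℝ)) t = if t ∈ T then z t else 0 := by
    intro t
    rw [Finsupp.finsetSum_apply]
    have h1 : ∀ i ∈ T, (z i • Finsupp.single i (1 : ℝ)) t = if t = i then z i else 0 := by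
      intro i _
      rw [Finsupp.smul_apply, Finsupp.single_apply, smul_eq_mul]
      by_cases h : i = t
      · rw [if_pos h, if_pos h.symm, mul_one]
      · rw [if_neg h, if_neg (Ne.symm h), mul_zero]
    rw [Finset.sum_congr rfl h1, Finset.sum_ite_eq]
  have e1 : ∀ t', bdR r z t' * Φ t' s = bdF r (∑ t ∈ T, z t • Finsupp.single t (1 : ℝ)) t' * Φ t' s := by
    intro t'
    by_cases h : Φ t' s = 0
    · rw [h, mul_zero, mul_zero]
    · congr 1
      rw [bdF_apply]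
      refine finsum_mem_congr rfl fun v hv => ?_
      congr 1
      rw [hz0]
      split_ifs with hm
      · rfl
      · by_contra hne
        exact hm ((hmem _).2 ⟨hne, v, Finset.mem_insert_self _ _, by rwa [Finset.erase_insert hv]⟩)
  have e2 : op Φ (bdR r z) s = lc Φ (bdF r (∑ t ∈ T, z t • Finsupp.single t (1 : ℝ))) s := by
    rw [lc_apply]
    unfold op
    rw [finsum_congr e1]
    refine finsum_eq_sum_of_support_subset _ ?_
    intro t ht
    rw [Finset.mem_coe, Finsupp.mem_support_iff]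
    exact left_ne_zero_of_mul ht
  rw [e2, map_sum, map_sum, Finsupp.finsetSum_apply]
  symm
  rw [finsum_eq_sum_of_support_subset (s := T)]
  · refine Finset.sum_congr rfl fun t _ => ?_
    rw [map_smul, map_smul]
    rfl
  · intro t ht
    rw [Finset.mem_coe, hmem]
    exact OpC_sub2 ht

theorem op_bd (hX : IsGeomS G X) (hY : IsGeomS L Y) {f : G → L} (hf : CoarseEmb f) {r : V → V → Prop}
    {r' : U → U → Prop} {Φ : Finset V → Finset U →₀ ℝ} (hΦ : Ctr f X Y 0 0 Φ) (hc : ChM r r' X Φ) {k : ℕ}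
    {z : Finset V → ℝ} (hz : IsL2Ch X k z) {s : Finset U} (hs : s ∈ Y) :
    bdR r' (op Φ z) s = op Φ (bdR r z) s := by
  have h0 : Φ ∅ s = 0 := by
    by_contra hne
    have h1 := (hΦ.mem ∅ (Or.inr rfl) s hne).2
    rw [Finset.card_empty] at h1
    exact (Finset.card_pos.2 (hY.ne s hs)).ne' (by omega)
  rw [OpC_one hX hY hf hΦ hz hs, OpC_two hX hY hf hΦ hz h0]
  refine finsum_congr fun t => ?_
  by_cases ht : z t = 0
  · rw [ht, zero_mul, zero_mul]
  · rw [hc t (Or.inl (hz.supp t ht).1)]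

theorem op_hom (hX : IsGeomS G X) (hY : IsGeomS L Y) {f : G → L} (hf : CoarseEmb f) {r : V → V → Prop}
    {r' : U → U → Prop} {Φ₁ Φ₂ h : Finset V → Finset U →₀ ℝ} (h₁ : Ctr f X Y 0 0 Φ₁) (h₂ : Ctr f X Y 0 0 Φ₂)
    (hh : Ctr f X Y 0 1 h) (h0 : h ∅ = 0)
    (he : ∀ t ∈ X, Φ₁ t - Φ₂ t = bdF r' (h t) + lc h (bdF r (Finsupp.single t 1))) {k : ℕ}
    {z : Finset V → ℝ} (hz : IsL2Ch X k z) {s : Finset U} (hs : s ∈ Y) :
    op Φ₁ z s - op Φ₂ z s = bdR r' (op h z) s + op h (bdR r z) s := by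
  have h0s : h ∅ s = 0 := by rw [h0]; rfl
  have hcol : ∀ {Φ : Finset V → Finset U →₀ ℝ}, Ctr f X Y 0 0 Φ →
      (Function.support fun t => z t * Φ t s).Finite := by
    intro Φ hΦ
    obtain ⟨N, hN⟩ := hΦ.cols hX hY hf k
    refine (hN s).1.subset fun t ht => ?_
    have h5 := hz.supp t (left_ne_zero_of_mul ht)
    exact ⟨Or.inl h5.1, h5.2, right_ne_zero_of_mul ht⟩
  rw [OpC_one hX hY hf hh hz hs, OpC_two hX hY hf hh hz h0s]
  unfold op
  rw [← finsum_sub_distrib (hcol h₁) (hcol h₂),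
    ← finsum_add_distrib ((OpC_fin1 hX hY hf hh hz hs).subset OpC_sub1)
      ((OpC_fin2 hX hY hf hh hz h0s).subset OpC_sub2)]
  refine finsum_congr fun t => ?_
  by_cases ht : z t = 0
  · rw [ht]
    ring
  · have h6 := congrArg (fun w : Finset U →₀ ℝ => w s) (he t (hz.supp t ht).1)
    simp only [Finsupp.sub_apply, Finsupp.add_apply] at h6
    rw [← mul_sub, ← mul_add, h6]

end Pool.Agent.PQ
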