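import Pool.Agent.PQ.HC
import Pool.Agent.PQ.CmB
import Pool.Agent.PQ.Inv
import Pool.Agent.PQ.OpA
import Pool.Agent.PQ.OpB
import Pool.Agent.PQ.OpC
import Pool.Agent.PQ.LF

/-!
# Project PQ: the vanishing of the reduced `ℓ²`-homology is invariant under coarse equivalences
-/

set_option autoImplicit false
set_option linter.unusedSectionVars false

open Finset Pointwise

noncomputable section

namespace Pool.Agent.PQ

open Pool.Agent.S11 Pool.Agent.H10.CI

/-- **Coarse invariance (Pansu).** The groups `G` and `L` act properly and cocompactly on the simplicial complexes `X` and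
`Y`, which are acyclic over the real numbers, and are coarsely equivalent: if the reduced `ℓ²`-homology of `X` vanishes in
degree `i`, so does that of `Y`. -/
theorem l2zero_of_coarse {G L V U : Type} [Group G] [Group L] [DecidableEq V] [DecidableEq U] [MulAction G V]
    [MulAction L U] {X : Set (Finset V)} {Y : Set (Finset U)} (hG : IsGeomS G X) (hL : IsGeomS L Y) (hX : AcR X)
    (hY : AcR Y) {f : G → L} (hf : CoarseEmb f) (hs : ∃ F : Finset L, ∀ l : L, ∃ g : G, (f g)⁻¹ * l ∈ F) {i : ℕ}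
    (h0 : L2ZeroS X i) : L2ZeroS Y i := by
  intro r' hr' z hz hz0 ε hε
  obtain ⟨r, hr⟩ : ∃ r : V → V → Prop, IsStrictTotalOrder V r := ⟨WellOrderingRel, inferInstance⟩
  obtain ⟨f', hf', hE⟩ := exists_inv hf hs
  obtain ⟨Φ, hΦ, hΦc, hΦ0⟩ := exists_chm hG hL hY hr hr' hf.lip
  obtain ⟨Ψ, hΨ, hΨc, hΨ0⟩ := exists_chm hL hG hX hr' hr hf'.lip
  have hc := Ctr.comp hL hG hΨ hΦ
  have hc' : Ctr (fun l : L => l) Y Y 0 0 (fun t => lc Φ (Ψ t)) := Ctr.close (f₂ := fun l => l) hE hc
  have hcc : ChM r' r' Y (fun t => lc Φ (Ψ t)) := ChM.comp hΨ hΨc hΦc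
  have he0 : (fun t : Finset U => Finsupp.single t (1 : ℝ)) ∅ = (fun t => lc Φ (Ψ t)) ∅ := by
    show Finsupp.single ∅ (1 : ℝ) = lc Φ (Ψ ∅)
    rw [hΨ0, lc_single, hΦ0]
  obtain ⟨h, hh, hh0, hhe⟩ := exists_hom hL hL hY hr' hr' lip_id (Ctr.id Y) hc' (ChM.id r' Y) hcc he0
  have hid : CoarseEmb (fun l : L => l) := by
    refine ⟨lip_id, fun x => ?_⟩
    refine (Set.finite_singleton x).subset ?_
    rintro a ⟨g, hg⟩
    have h1 : g⁻¹ * (g * a) = x := hg
    rw [inv_mul_cancel_left] at h1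
    exact h1
  -- the boundary of `z` does not contribute
  have hzb : ∀ s, In Y s → s ≠ ∅ → bdR r' z s = 0 := fun s hs hne => hs.elim (hz0 s) fun h1 => absurd h1 hne
  have hzn : ∀ s, bdR r' z s ≠ 0 → In Y s := by
    intro s h1
    obtain ⟨v, _, h2⟩ := bdR_ne h1
    rcases s.eq_empty_or_nonempty with h3 | h3
    · exact Or.inr h3
    · exact Or.inl (hL.down _ (hz.supp _ h2).1 s (subset_insert v s) h3)
  -- the chain `Ψ z`
  obtain ⟨C₁, hC₁, hop₁⟩ := op_l2 hL hG hf' hΨ (i + 1)
  obtain ⟨hw, -⟩ := hop₁ z hz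
  rw [add_zero] at hw
  have hcyc : ∀ t ∈ X, bdR r (op Ψ z) t = 0 := by
    intro t ht
    rw [op_bd hL hG hf' hΨ hΨc hz ht]
    unfold op
    refine finsum_eq_zero_of_forall_eq_zero fun s => ?_
    by_cases h1 : bdR r' z s = 0
    · rw [h1, zero_mul]
    · have h2 : s = ∅ := by
        by_contra h3
        exact h1 (hzb s (hzn s h1) h3)
      rw [h2, hΨ0, Finsupp.single_apply, if_neg, mul_zero]
      rintro rfl
      exact absurd (hG.ne _ ht) (by simp)
  obtain ⟨C, hC, hop⟩ := op_l2 hG hL hf hΦ (i + 1)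
  obtain ⟨y, hy, hsum, hlt⟩ := h0 r hr (op Ψ z) hw hcyc (ε / (C + 1)) (by positivity)
  obtain ⟨_, _, hop₂⟩ := op_l2 hG hL hf hΦ (i + 2)
  obtain ⟨hy1, -⟩ := hop₂ y hy
  obtain ⟨_, _, hop₃⟩ := op_l2 hL hL hid hh (i + 1)
  obtain ⟨hy2, -⟩ := hop₃ z hz
  rw [add_zero] at hy1
  have hy2' : IsL2Ch Y (i + 2) (op h z) := hy2
  -- the boundary of `y` is square summable
  have hby : IsL2Ch X (i + 1) (bdR r y) := by
    refine ⟨fun s h1 => ?_, ?_⟩
    · obtain ⟨v, hv, h2⟩ := bdR_ne h1
      obtain ⟨h3, h4⟩ := hy.supp _ h2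
      have h5 : s.card = i + 1 := by
        rw [card_insert_of_notMem hv] at h4
        omega
      exact ⟨hG.down _ h3 s (subset_insert v s) (card_pos.1 (by omega)), h5⟩
    · have h1 : Summable fun s => 2 * (op Ψ z s ^ 2 + (op Ψ z s - bdR r y s) ^ 2) := (hw.l2.add hsum).mul_left 2
      refine Summable.of_nonneg_of_le (fun s => sq_nonneg _) (fun s => ?_) h1
      nlinarith [sq_nonneg (op Ψ z s + (op Ψ z s - bdR r y s))]
  have hdif : IsL2Ch X (i + 1) (fun s => op Ψ z s - bdR r y s) := by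
    refine ⟨fun s h1 => ?_, hsum⟩
    by_cases h2 : op Ψ z s = 0
    · exact hby.supp s fun h3 => h1 (by
        show op Ψ z s - bdR r y s = 0
        rw [h2, h3, sub_zero])
    · exact hw.supp s h2
  obtain ⟨hd1, hd2⟩ := hop _ hdif
  -- the chain
  have hy3 : IsL2Ch Y (i + 2) (fun s => op Φ y s + op h z s) := by
    refine ⟨fun s h1 => ?_, ?_⟩
    · by_cases h2 : op Φ y s = 0
      · exact hy2'.supp s fun h3 => h1 (by
          show op Φ y s + op h z s = 0
          rw [h2, h3, add_zero])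
      · exact hy1.supp s h2
    · have h1 : Summable fun s => 2 * (op Φ y s ^ 2 + op h z s ^ 2) := (hy1.l2.add hy2'.l2).mul_left 2
      refine Summable.of_nonneg_of_le (fun s => sq_nonneg _) (fun s => ?_) h1
      nlinarith [sq_nonneg (op Φ y s - op h z s)]
  have key : ∀ s, z s - bdR r' (fun s => op Φ y s + op h z s) s = op Φ (fun s => op Ψ z s - bdR r y s) s := by
    intro s
    by_cases hs : s ∈ Y
    · have e1 := op_hom hL hL hid (Ctr.id Y) hc' hh hh0 hhe hz hs
      have e2 : op (fun t : Finset U => Finsupp.single t (1 : ℝ)) z = z := op_id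
      rw [e2, op_comp hL hG hL hf' hf hΨ hΦ hz] at e1
      have e3 : op h (bdR r' z) s = 0 := by
        unfold op
        refine finsum_eq_zero_of_forall_eq_zero fun t => ?_
        by_cases h1 : bdR r' z t = 0
        · rw [h1, zero_mul]
        · have h2 : t = ∅ := by
            by_contra h3
            exact h1 (hzb t (hzn t h1) h3)
          rw [h2, hh0, Finsupp.zero_apply, mul_zero]
      rw [e3, add_zero] at e1
      rw [bdR_add hL r' (fun t h1 => (hy1.supp t h1).1) (fun t h1 => (hy2'.supp t h1).1) hs, ← e1,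
        op_bd hG hL hf hΦ hΦc hy hs, op_sub hG hL hf hΦ hw hby s]
      ring
    · have e1 : z s = 0 := by
        by_contra h1
        exact hs (hz.supp s h1).1
      have e2 : bdR r' (fun s => op Φ y s + op h z s) s = 0 := by
        by_contra h1
        obtain ⟨v, hv, h2⟩ := bdR_ne h1
        obtain ⟨h3, h4⟩ := hy3.supp _ h2
        rw [card_insert_of_notMem hv] at h4
        exact hs (hL.down _ h3 s (subset_insert v s) (card_pos.1 (by omega)))
      have e3 : op Φ (fun s => op Ψ z s - bdR r y s) s = 0 := by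
        by_contra h1
        exact hs (hd1.supp s h1).1
      rw [e1, e2, e3, sub_zero]
  refine ⟨_, hy3, ?_, ?_⟩
  · exact hd1.l2.congr fun s => by rw [key s]
  · have h1 : ∑' s, (z s - bdR r' (fun s => op Φ y s + op h z s) s) ^ 2 =
        ∑' s, op Φ (fun s => op Ψ z s - bdR r y s) s ^ 2 := tsum_congr fun s => by rw [key s]
    rw [h1]
    refine hd2.trans_lt ?_
    have h2 : 0 ≤ ∑' s, (op Ψ z s - bdR r y s) ^ 2 := tsum_nonneg fun s => sq_nonneg _
    have h3 : C * ∑' s, (op Ψ z s - bdR r y s) ^ 2 ≤ (C + 1) * ∑' s, (op Ψ z s - bdR r y s) ^ 2 := by nlinarith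
    have h4 : (C + 1) * ∑' s, (op Ψ z s - bdR r y s) ^ 2 < (C + 1) * (ε / (C + 1)) :=
      mul_lt_mul_of_pos_left hlt (by positivity)
    rw [mul_div_cancel₀ _ (by positivity : (C + 1 : ℝ) ≠ 0)] at h4
    exact h3.trans_lt h4

end Pool.Agent.PQ
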