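import Pool.Agent.PQ.Final

/-!
# Project PQ, examples of coarse equivalences

PROOFS.  `coarseEq_subgroup`: for `g : G` write `g = p * c` with `c` in a finite set `C` of representatives of the right cosets `P \ G` (`1 ∈ C` not needed); `f g := p`.  `(f g)⁻¹ * f (g * a) = c * a * c'⁻¹` with `c, c' ∈ C`: finitely many values for every `a`
(`lip`), and `a = c⁻¹ * x * c'` is in a finite set for every `x` (`prop`); `onto`: for `q : P` take `g = q`: `(f q)⁻¹ * q = c` (an element of `P ∩ C`).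
`coarseEq_of_geom`: two groups `G`, `Q` act properly and cocompactly on the same connected simplicial complex `Z` (`conn`: any two vertices are joined by a path of edges; simplices of `Z` with two vertices).
Let `{v₀} ∈ Z` be a vertex, `F` a finite set of vertices which meets every `Q`-orbit of vertices.  `f g := q` with `g • v₀ ∈ q • F`.  Balls in the graph of `Z` are finite (local finiteness: `geom_cofaces` in `PQ/LF`), and both groups act by
automorphisms of the graph.  `lip`: a path of length `m` from `v₀` to `a • v₀`; apply `(f g)⁻¹ * g` (a bijection of the vertices which preserves the edges): a path of length `m` from `F` to `((f g)⁻¹ * f (g * a)) • F`, so `((f g)⁻¹ * f (g * a)) • w` is in the finite ball of radius `m` around `F` for some `w ∈ F`;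
properness of `Q` (`geom_coset` for `{w}`).  `prop`: if `(f g)⁻¹ * f (g * a) = x`, then `(f g)⁻¹ • (g • v₀) ∈ F` and `(f g)⁻¹ • (g * a) • v₀ ∈ x • F` are joined by a path of length at most `m(x)` (connected, finitely many pairs), so `v₀` and `a • v₀` are joined by a path of length at most `m(x)`; properness of `G`.
`onto`: for `q : Q` the vertex `q • v₀` is in `g • F'` for a finite `F'` which meets every `G`-orbit of vertices: a path of length at most `m` from `g • v₀` to `q • v₀`; as before `(f g)⁻¹ * q` is in a finite set.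
-/

set_option autoImplicit false
set_option linter.unusedSectionVars false

open Finset Pointwise

namespace Pool.Agent.PQ

open Pool.Agent.S11
open Pool.Agent.H10.CI (CoarseEmb)

/-- a subgroup of finite index is coarsely equivalent to the group -/
theorem coarseEq_subgroup {G : Type} [Group G] (P : Subgroup G) (hP : P.FiniteIndex) : ∃ f : G → P, CoarseEq f := by
  classical
  have hfin : Finite (G ⧸ P) := inferInstance
  -- representatives
  let o : G → G := fun g => (QuotientGroup.mk g⁻¹ : G ⧸ P).out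
  have ho : ∀ g : G, g * o g ∈ P := by
    intro g
    have h1 : (QuotientGroup.mk (o g) : G ⧸ P) = QuotientGroup.mk g⁻¹ := Quotient.out_eq' _
    have h2 : (o g)⁻¹ * g⁻¹ ∈ P := QuotientGroup.eq.1 h1
    have h3 := P.inv_mem h2
    simpa [mul_inv_rev] using h3
  have hO : (Set.range o).Finite := by
    refine (Set.finite_range fun c : G ⧸ P => c.out).subset ?_
    rintro _ ⟨g, rfl⟩
    exact ⟨QuotientGroup.mk g⁻¹, rfl⟩
  let f : G → P := fun g => ⟨g * o g, ho g⟩
  have hf : ∀ g : G, (f g : G) = g * o g := fun _ => rfl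
  have key : ∀ g a : G, (((f g)⁻¹ * f (g * a) : P) : G) = (o g)⁻¹ * a * o (g * a) := by
    intro g a
    rw [Subgroup.coe_mul, Subgroup.coe_inv, hf, hf]
    group
  refine ⟨f, ⟨?_, ?_⟩, ?_⟩
  · intro a
    have h1 : ((fun p : G × G => p.1⁻¹ * a * p.2) '' (Set.range o ×ˢ Set.range o)).Finite := (hO.prod hO).image _
    refine Set.Finite.of_finite_image (f := fun x : P => (x : G)) (h1.subset ?_) Subtype.val_injective.injOn
    rintro _ ⟨x, ⟨g, rfl⟩, rfl⟩
    exact ⟨(o g, o (g * a)), ⟨⟨g, rfl⟩, ⟨g * a, rfl⟩⟩, (key g a).symm⟩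
  · intro x
    have h1 : ((fun p : G × G => p.1 * (x : G) * p.2⁻¹) '' (Set.range o ×ˢ Set.range o)).Finite :=
      (hO.prod hO).image _
    refine h1.subset ?_
    rintro a ⟨g, rfl⟩
    refine ⟨(o g, o (g * a)), ⟨⟨g, rfl⟩, ⟨g * a, rfl⟩⟩, ?_⟩
    simp only [key]
    group
  · have h1 : {x : P | (x : G) ∈ (fun y : G => y⁻¹) '' Set.range o}.Finite := by
      refine Set.Finite.of_finite_image (f := fun x : P => (x : G)) ((hO.image fun y : G => y⁻¹).subset ?_)
        Subtype.val_injective.injOn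
      rintro _ ⟨x, hx, rfl⟩
      exact hx
    refine ⟨h1.toFinset, fun q => ⟨(q : G), ?_⟩⟩
    rw [Set.Finite.mem_toFinset]
    refine ⟨o (q : G), ⟨(q : G), rfl⟩, ?_⟩
    rw [Subgroup.coe_mul, Subgroup.coe_inv, hf]
    group

section

variable {G V : Type} [Group G] [DecidableEq V] [MulAction G V] {Z : Set (Finset V)}

/-- a path of `n` edges -/
private def reach {V : Type} [DecidableEq V] (Z : Set (Finset V)) : ℕ → V → V → Prop
  | 0, v, w => v = w
  | n + 1, v, w => ∃ u, reach Z n v u ∧ ({u, w} : Finset V) ∈ Z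

private theorem reach_smul (hG : IsGeomS G Z) (g : G) :
    ∀ (n : ℕ) (v w : V), reach Z n v w → reach Z n (g • v) (g • w)
  | 0, v, w, h => by
      have h' : v = w := h
      show g • v = g • w
      rw [h']
  | n + 1, v, w, ⟨u, h, hu⟩ => ⟨g • u, reach_smul hG g n v u h, by
      have h1 := hG.mem g _ hu
      have h2 : g • ({u, w} : Finset V) = {g • u, g • w} := by
        simp [Finset.smul_finset_insert, Finset.smul_finset_singleton]
      rwa [h2] at h1⟩

private theorem reach_fin (hG : IsGeomS G Z) {v : V} (hv : {v} ∈ Z) :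
    ∀ n : ℕ, {w | reach Z n v w}.Finite ∧ ∀ w, reach Z n v w → ({w} : Finset V) ∈ Z
  | 0 => by
      refine ⟨(Set.finite_singleton v).subset fun w hw => ?_, fun w hw => ?_⟩
      · have h' : v = w := hw
        exact h'.symm
      · have h' : v = w := hw
        rwa [← h']
  | n + 1 => by
      obtain ⟨h1, h2⟩ := reach_fin hG hv n
      refine ⟨?_, ?_⟩
      · have h4 : ∀ u ∈ {u | reach Z n v u}, {w | ({u, w} : Finset V) ∈ Z}.Finite := by
          intro u hu
          refine ((geom_cofaces hG (h2 u hu)).biUnion fun t _ => Finset.finite_toSet t).subset ?_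
          intro w hw
          simp only [Set.mem_iUnion]
          exact ⟨{u, w}, ⟨hw, by simp⟩, by simp⟩
        refine (h1.biUnion h4).subset ?_
        rintro w ⟨u, hu, huw⟩
        simp only [Set.mem_iUnion]
        exact ⟨u, hu, huw⟩
      · rintro w ⟨u, hu, huw⟩
        exact hG.down _ huw {w} (by simp) (singleton_nonempty w)

private theorem mv_fin (hG : IsGeomS G Z) {u w : V} (hu : {u} ∈ Z) (hw : {w} ∈ Z) (m : ℕ) :
    {x : G | reach Z m u (x • w)}.Finite := by
  refine ((reach_fin hG hu m).1.biUnion fun y _ => geom_coset hG hw {y}).subset ?_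
  intro x hx
  simp only [Set.mem_iUnion]
  exact ⟨x • w, hx, Finset.smul_finset_singleton w⟩

private theorem reach_of {v w : V} (h : Relation.ReflTransGen (fun a b => ({a, b} : Finset V) ∈ Z) v w) :
    ∃ n, reach Z n v w := by
  induction h with
  | refl => exact ⟨0, rfl⟩
  | tail _ h2 ih =>
    obtain ⟨n, hn⟩ := ih
    exact ⟨n + 1, _, hn, h2⟩

/-- a finite set of vertices which meets every orbit of vertices -/
private theorem orb_fin (hG : IsGeomS G Z) :
    ∃ F : Set V, F.Finite ∧ (∀ w ∈ F, ({w} : Finset V) ∈ Z) ∧ ∀ v, {v} ∈ Z → ∃ g : G, g • v ∈ F := by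
  obtain ⟨F, hF⟩ := hG.cocompact
  refine ⟨{w | {w} ∈ Z ∧ w ∈ F.biUnion id}, ?_, fun w hw => hw.1, fun v hv => ?_⟩
  · exact (Finset.finite_toSet (F.biUnion id)).subset fun w hw => hw.2
  · obtain ⟨g, hg⟩ := hF {v} hv
    have h1 : g • ({v} : Finset V) = {g • v} := Finset.smul_finset_singleton v
    refine ⟨g, ?_, ?_⟩
    · have h2 := hG.mem g _ hv
      rwa [h1] at h2
    · rw [h1] at hg
      exact mem_biUnion.2 ⟨_, hg, by simp⟩

end

/-- **groups which act properly and cocompactly on the same connected simplicial complex are coarsely equivalent** -/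
theorem coarseEq_of_geom {G Q V : Type} [Group G] [Group Q] [DecidableEq V] [MulAction G V] [MulAction Q V]
    {Z : Set (Finset V)} (hG : IsGeomS G Z) (hQ : IsGeomS Q Z) (hne : Z.Nonempty)
    (conn : ∀ v w : V, {v} ∈ Z → {w} ∈ Z → Relation.ReflTransGen (fun a b => ({a, b} : Finset V) ∈ Z) v w) :
    ∃ f : G → Q, CoarseEq f := by
  classical
  obtain ⟨s, hs⟩ := hne
  obtain ⟨v₀, hv₀s⟩ := hG.ne s hs
  have hv₀ : ({v₀} : Finset V) ∈ Z := hG.down s hs {v₀} (by simpa using hv₀s) (singleton_nonempty v₀)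
  obtain ⟨F, hFf, hFZ, hF⟩ := orb_fin hQ
  obtain ⟨F', hFf', hFZ', hF'⟩ := orb_fin hG
  have vG : ∀ (g : G) (v : V), {v} ∈ Z → ({g • v} : Finset V) ∈ Z := by
    intro g v hv
    have h1 := hG.mem g _ hv
    rwa [Finset.smul_finset_singleton] at h1
  have vQ : ∀ (q : Q) (v : V), {v} ∈ Z → ({q • v} : Finset V) ∈ Z := by
    intro g v hv
    have h1 := hQ.mem g _ hv
    rwa [Finset.smul_finset_singleton] at h1
  choose k hk using fun g : G => hF (g • v₀) (vG g v₀ hv₀)
  let f : G → Q := fun g => (k g)⁻¹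
  have hf : ∀ g : G, (f g)⁻¹ • g • v₀ ∈ F := by
    intro g
    show ((k g)⁻¹)⁻¹ • g • v₀ ∈ F
    rw [inv_inv]
    exact hk g
  -- the vertex `(f g)⁻¹ • (g * a) • v₀`
  have hx : ∀ g a : G, ((f g)⁻¹ * f (g * a)) • ((f (g * a))⁻¹ • (g * a) • v₀) = (f g)⁻¹ • (g * a) • v₀ := by
    intro g a
    rw [mul_smul, smul_inv_smul]
  have cn : ∀ v w : V, {v} ∈ Z → {w} ∈ Z → ∃ m, reach Z m v w := fun v w hv hw => reach_of (conn v w hv hw)
  refine ⟨f, ⟨?_, ?_⟩, ?_⟩
  · intro a
    obtain ⟨m, hm⟩ := cn v₀ (a • v₀) hv₀ (vG a v₀ hv₀)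
    have h1 : ∀ u ∈ F, (⋃ w ∈ F, {x : Q | reach Z m u (x • w)}).Finite := fun u hu =>
      hFf.biUnion fun w hw => mv_fin hQ (hFZ u hu) (hFZ w hw) m
    refine (hFf.biUnion h1).subset ?_
    rintro x ⟨g, rfl⟩
    simp only [Set.mem_iUnion]
    refine ⟨(f g)⁻¹ • g • v₀, hf g, (f (g * a))⁻¹ • (g * a) • v₀, hf (g * a), ?_⟩
    show reach Z m _ _
    rw [hx g a, mul_smul g a]
    exact reach_smul hQ _ _ _ _ (reach_smul hG g _ _ _ hm)
  · intro x
    have h0 : ∀ u w : V, ∃ m, u ∈ F → w ∈ F → reach Z m u (x • w) := by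
      intro u w
      by_cases hu : u ∈ F
      · by_cases hw : w ∈ F
        · obtain ⟨m, hm⟩ := cn u (x • w) (hFZ u hu) (vQ x w (hFZ w hw))
          exact ⟨m, fun _ _ => hm⟩
        · exact ⟨0, fun _ h => absurd h hw⟩
      · exact ⟨0, fun h _ => absurd h hu⟩
    choose m hm using h0
    have h1 : ∀ u ∈ F, (⋃ w ∈ F, {a : G | reach Z (m u w) v₀ (a • v₀)}).Finite := fun u _ =>
      hFf.biUnion fun w _ => mv_fin hG hv₀ hv₀ (m u w)
    refine (hFf.biUnion h1).subset ?_
    rintro a ⟨g, hg⟩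
    simp only [Set.mem_iUnion]
    refine ⟨(f g)⁻¹ • g • v₀, hf g, (f (g * a))⁻¹ • (g * a) • v₀, hf (g * a), ?_⟩
    show reach Z _ v₀ (a • v₀)
    have h2 := hm ((f g)⁻¹ • g • v₀) ((f (g * a))⁻¹ • (g * a) • v₀) (hf g) (hf (g * a))
    rw [← hg, hx g a] at h2
    generalize m ((f g)⁻¹ • g • v₀) ((f (g * a))⁻¹ • (g * a) • v₀) = n at h2 ⊢
    have h3 := reach_smul hG g⁻¹ _ _ _ (reach_smul hQ (f g) _ _ _ h2)
    rwa [smul_inv_smul, smul_inv_smul, inv_smul_smul, mul_smul, inv_smul_smul] at h3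
  · have h0 : ∀ u : V, ∃ m, u ∈ F' → reach Z m v₀ u := by
      intro u
      by_cases hu : u ∈ F'
      · obtain ⟨m, hm⟩ := cn v₀ u hv₀ (hFZ' u hu)
        exact ⟨m, fun _ => hm⟩
      · exact ⟨0, fun h => absurd h hu⟩
    choose m hm using h0
    have h1 : ∀ u ∈ F', (⋃ w ∈ F, {x : Q | reach Z (m u) w (x • v₀)}).Finite := fun u _ =>
      hFf.biUnion fun w hw => mv_fin hQ (hFZ w hw) hv₀ (m u)
    have h2 := hFf'.biUnion h1
    refine ⟨h2.toFinset, fun q => ?_⟩
    obtain ⟨g, hg⟩ := hF' (q • v₀) (vQ q v₀ hv₀)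
    refine ⟨g⁻¹, ?_⟩
    rw [Set.Finite.mem_toFinset]
    simp only [Set.mem_iUnion]
    refine ⟨g • q • v₀, hg, (f g⁻¹)⁻¹ • g⁻¹ • v₀, hf g⁻¹, ?_⟩
    show reach Z _ _ _
    have h3 := reach_smul hQ (f g⁻¹)⁻¹ _ _ _ (reach_smul hG g⁻¹ _ _ _ (hm _ hg))
    rwa [inv_smul_smul, ← mul_smul (f g⁻¹)⁻¹ q v₀] at h3

end Pool.Agent.PQ
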