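import Pool.Agent.PQ.UA

/-!
# Project PQ: construction of controlled chain maps and homotopies

PROOF of `exists_ext`.  Induction over the number of vertices (`exists_ext_step`).  Step: choose finitely many
representatives `T` of the orbits of the simplices of `X` (`hX.cocompact`), and for every such simplex `t` a pair `(g, t₀)`,
`t = g • t₀`, `t₀ ∈ T`.  `z := A t + c • lc Φ_k (bdF r (single t 1))` is a cycle, supported in `f g • F` with `F` finite, and
bounded.  `exists_ua` with `l = f g` gives `Φ t := w`.  `near` for an arbitrary `t`: `g • t = g' • t₀` with the chosen pair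
`(g', t₀)`; `a = g⁻¹ * g'` satisfies `a • t₀ = t`: finitely many `a`; `f g' = f g * x` with `x` in the finite set of `hf`
for `a`; so the support is in `f g • (x • F')`.
-/

set_option autoImplicit false
set_option linter.unusedSectionVars false

open Finset Pointwise

noncomputable section

namespace Pool.Agent.PQ

open Pool.Agent.S11 Pool.Agent.H10.CI

variable {U V G L : Type} [DecidableEq U] [DecidableEq V] [Group G] [Group L] [MulAction G V] [MulAction L U]
  {X : Set (Finset V)} {Y : Set (Finset U)}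

theorem erase_smul_ext (g : G) (t : Finset V) (v : V) : (g • t).erase (g • v) = g • t.erase v := by
  ext u
  rw [mem_erase, ← inv_smul_mem_iff, ← inv_smul_mem_iff, mem_erase]
  refine and_congr_left fun _ => not_congr ?_
  rw [inv_smul_eq_iff]

theorem lc_bd (Φ : Finset V → Finset U →₀ ℝ) (r : V → V → Prop) (t : Finset V) :
    lc Φ (bdF r (Finsupp.single t 1)) = ∑ v ∈ t, (sgR r (t.erase v) v : ℝ) • Φ (t.erase v) := by
  rw [bdF_single, map_sum]
  exact sum_congr rfl fun v _ => by rw [map_smul, lc_single]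

theorem sgR_abs (r : V → V → Prop) (s : Finset V) (v : V) : |(sgR r s v : ℝ)| = 1 := by
  unfold sgR
  push_cast
  rw [abs_pow, abs_neg, abs_one, one_pow]

theorem In.smul (hX : IsGeomS G X) {t : Finset V} (ht : In X t) (g : G) : In X (g • t) := by
  rcases ht with ht | rfl
  · exact Or.inl (hX.mem g t ht)
  · exact Or.inr (smul_finset_empty g)

theorem In.erase (hX : IsGeomS G X) {t : Finset V} (ht : In X t) (v : V) : In X (t.erase v) := by
  rcases (t.erase v).eq_empty_or_nonempty with h | h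
  · exact Or.inr h
  · rcases ht with ht | rfl
    · exact Or.inl (hX.down t ht _ (erase_subset _ _) h)
    · exact absurd h (by simp)

/-- the properties of a partial extension, on the simplices with at most `k` vertices -/
structure PExt (f : G → L) (X : Set (Finset V)) (Y : Set (Finset U)) (r : V → V → Prop) (r' : U → U → Prop) (e : ℕ) (c : ℝ)
    (A : Finset V → Finset U →₀ ℝ) (φ₀ : Finset U →₀ ℝ) (k : ℕ) (Φ : Finset V → Finset U →₀ ℝ) : Prop where
  mem : ∀ t, In X t → t.card ≤ k → ∀ s, Φ t s ≠ 0 → In Y s ∧ s.card = t.card + e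
  near : ∀ t, In X t → t.card ≤ k → ∃ F : Finset (Finset U), ∀ g : G, ∀ s, Φ (g • t) s ≠ 0 → ∃ s₀ ∈ F, s = f g • s₀
  bdd : ∃ C : ℝ, 0 ≤ C ∧ ∀ t, In X t → t.card ≤ k → ∀ s, |Φ t s| ≤ C
  zero : Φ ∅ = φ₀
  eq : ∀ t, In X t → t.card ≤ k → bdF r' (Φ t) = A t + c • lc Φ (bdF r (Finsupp.single t 1))

/-- finitely many elements move a simplex to one of finitely many simplices -/
theorem finite_move (hX : IsGeomS G X) (T : Finset (Finset V)) {t : Finset V} (ht : t ∈ X) :
    {a : G | ∃ t₀ ∈ T, a • t₀ = t}.Finite := by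
  have h1 : {a : G | ∃ t₀ ∈ T, a • t₀ = t} = ⋃ t₀ ∈ (T : Set (Finset V)), {a : G | a • t₀ = t} := by
    ext a
    simp
  rw [h1]
  refine T.finite_toSet.biUnion fun t₀ _ => ?_
  by_cases h2 : ∃ b : G, b • t₀ = t
  · obtain ⟨b, hb⟩ := h2
    refine ((hX.proper t ht).image fun x => x * b).subset fun a ha => ?_
    have ha' : a • t₀ = t := ha
    refine ⟨a * b⁻¹, ?_, by group⟩
    show (a * b⁻¹) • t = t
    rw [mul_smul, ← hb, inv_smul_smul, ha', hb]
  · refine Set.Finite.subset Set.finite_empty fun a ha => h2 ⟨a, ha⟩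

theorem PExt.step (hX : IsGeomS G X) (hY : IsGeomS L Y) (hac : AcR Y) {r : V → V → Prop} (hr : IsStrictTotalOrder V r)
    {r' : U → U → Prop} (hr' : IsStrictTotalOrder U r') {f : G → L} (hf : Lip f) {e : ℕ} {c : ℝ} (hc : c = 1 ∨ c = -1)
    {A : Finset V → Finset U →₀ ℝ} (hA : Ctr f X Y 1 e A)
    (hcyc : ∀ t, In X t → bdF r' (A t) + c • lc A (bdF r (Finsupp.single t 1)) = 0)
    {φ₀ : Finset U →₀ ℝ} {k : ℕ} {Φ : Finset V → Finset U →₀ ℝ} (h : PExt f X Y r r' e c A φ₀ k Φ) :
    ∃ Φ', PExt f X Y r r' e c A φ₀ (k + 1) Φ' := by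
  classical
  obtain ⟨T, hT⟩ := hX.cocompact
  have hcabs : |c| = 1 := by
    rcases hc with rfl | rfl
    · exact abs_one
    · rw [abs_neg, abs_one]
  -- the cycles
  set z : Finset V → Finset U →₀ ℝ := fun t => A t + c • lc Φ (bdF r (Finsupp.single t 1)) with hz
  have hzne : ∀ t s, z t s ≠ 0 → A t s ≠ 0 ∨ ∃ v ∈ t, Φ (t.erase v) s ≠ 0 := by
    intro t s h1
    by_contra h2
    push Not at h2
    apply h1
    show (A t + c • lc Φ (bdF r (Finsupp.single t 1))) s = 0
    rw [Finsupp.add_apply, h2.1, zero_add, Finsupp.smul_apply, lc_bd, Finsupp.finsetSum_apply, sum_eq_zero, smul_zero]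
    intro v hv
    rw [Finsupp.smul_apply, h2.2 v hv, smul_zero]
  have hzcyc : ∀ t ∈ X, t.card = k + 1 → bdF r' (z t) = 0 := by
    intro t ht htk
    have h1 : bdF r' (lc Φ (bdF r (Finsupp.single t 1))) = lc A (bdF r (Finsupp.single t 1)) := by
      have h2 : ∀ v ∈ t, bdF r' (Φ (t.erase v)) = A (t.erase v) + c • lc Φ (bdF r (Finsupp.single (t.erase v) 1)) := by
        intro v hv
        refine h.eq _ (In.erase hX (Or.inl ht) v) ?_
        rw [card_erase_of_mem hv]
        omega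
      rw [lc_bd, map_sum, lc_bd]
      have h3 : ∑ v ∈ t, bdF r' ((sgR r (t.erase v) v : ℝ) • Φ (t.erase v)) =
          ∑ v ∈ t, (sgR r (t.erase v) v : ℝ) • A (t.erase v) +
            c • lc Φ (bdF r (∑ v ∈ t, (sgR r (t.erase v) v : ℝ) • Finsupp.single (t.erase v) (1 : ℝ))) := by
        rw [map_sum, map_sum, smul_sum, ← sum_add_distrib]
        refine sum_congr rfl fun v hv => ?_
        rw [map_smul, h2 v hv, smul_add, map_smul, map_smul, smul_comm c]
      rw [h3, ← bdF_single, bdF_bdF hr, map_zero, smul_zero, add_zero]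
    show bdF r' (A t + c • lc Φ (bdF r (Finsupp.single t 1))) = 0
    rw [map_add, map_smul, h1]
    exact hcyc t (Or.inl ht)
  -- bounds
  obtain ⟨C, hC0, hC⟩ := h.bdd
  obtain ⟨CA, hCA⟩ := hA.bdd (k + 1)
  have hzb : ∀ t ∈ X, t.card = k + 1 → ∀ s, |z t s| ≤ |CA| + (k + 1) * C := by
    intro t ht htk s
    show |(A t + c • lc Φ (bdF r (Finsupp.single t 1))) s| ≤ _
    rw [Finsupp.add_apply, Finsupp.smul_apply, lc_bd, Finsupp.finsetSum_apply]
    refine (abs_add_le _ _).trans (add_le_add ((hCA t (Or.inl ht) htk s).trans (le_abs_self _)) ?_)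
    rw [smul_eq_mul, abs_mul, hcabs, one_mul]
    refine (abs_sum_le_sum_abs _ _).trans ?_
    have h1 : ∀ v ∈ t, |((sgR r (t.erase v) v : ℝ) • Φ (t.erase v)) s| ≤ C := by
      intro v hv
      rw [Finsupp.smul_apply, smul_eq_mul, abs_mul, sgR_abs, one_mul]
      refine hC _ (In.erase hX (Or.inl ht) v) ?_ s
      rw [card_erase_of_mem hv]
      omega
    refine (sum_le_card_nsmul _ _ _ h1).trans ?_
    rw [htk, nsmul_eq_mul]
    push_cast
    exact le_refl _
  -- supports
  have hnear : ∀ t₀ : Finset V, ∃ F : Finset (Finset U), t₀ ∈ X → t₀.card = k + 1 → ∀ g : G, ∀ s, z (g • t₀) s ≠ 0 →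
      ∃ s₀ ∈ F, s = f g • s₀ := by
    intro t₀
    by_cases h0 : t₀ ∈ X ∧ t₀.card = k + 1
    · obtain ⟨FA, hFA⟩ := hA.near t₀ (Or.inl h0.1)
      have h1 : ∀ v : V, ∃ F : Finset (Finset U), v ∈ t₀ → ∀ g : G, ∀ s, Φ (g • t₀.erase v) s ≠ 0 → ∃ s₀ ∈ F, s = f g • s₀ := by
        intro v
        by_cases hv : v ∈ t₀
        · obtain ⟨F, hF⟩ := h.near _ (In.erase hX (Or.inl h0.1) v) (by rw [card_erase_of_mem hv]; omega)
          exact ⟨F, fun _ => hF⟩
        · exact ⟨∅, fun h2 => absurd h2 hv⟩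
      choose Fv hFv using h1
      refine ⟨FA ∪ t₀.biUnion Fv, fun _ _ g s hs => ?_⟩
      rcases hzne _ _ hs with h2 | ⟨v', hv', h2⟩
      · obtain ⟨s₀, hs₀, hss⟩ := hFA g s h2
        exact ⟨s₀, mem_union_left _ hs₀, hss⟩
      · obtain ⟨v, hv, rfl⟩ := mem_smul_finset.1 hv'
        rw [erase_smul_ext] at h2
        obtain ⟨s₀, hs₀, hss⟩ := hFv v hv g s h2
        exact ⟨s₀, mem_union_right _ (mem_biUnion.2 ⟨v, hv, hs₀⟩), hss⟩
    · exact ⟨∅, fun h1 h2 => absurd ⟨h1, h2⟩ h0⟩
  choose F₁ hF₁ using hnear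
  -- representatives
  have hrep : ∀ t : Finset V, ∃ g : G, t ∈ X → g⁻¹ • t ∈ T := by
    intro t
    by_cases ht : t ∈ X
    · obtain ⟨g, hg⟩ := hT t ht
      exact ⟨g⁻¹, fun _ => by rwa [inv_inv]⟩
    · exact ⟨1, fun h1 => absurd h1 ht⟩
  choose γ hγ using hrep
  obtain ⟨F', C', hC', hua⟩ := exists_ua hY.down hY.mem hac hr' (T.biUnion F₁) (k + e)
  have hw : ∀ t : Finset V, ∃ w : Finset U →₀ ℝ, t ∈ X → t.card = k + 1 →
      (∀ s, w s ≠ 0 → s ∈ Y ∧ s.card = k + e + 1 ∧ ∃ s₀ ∈ F', s = f (γ t) • s₀) ∧ bdF r' w = z t ∧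
        ∀ s, |w s| ≤ C' * (|CA| + (k + 1) * C) := by
    intro t
    by_cases h0 : t ∈ X ∧ t.card = k + 1
    · have hsup : ∀ s, z t s ≠ 0 → In Y s ∧ s.card = k + e ∧ ∃ s₀ ∈ T.biUnion F₁, s = f (γ t) • s₀ := by
        intro s hs
        have h1 : In Y s ∧ s.card = k + e := by
          rcases hzne _ _ hs with h2 | ⟨v, hv, h2⟩
          · obtain ⟨h3, h4⟩ := hA.mem t (Or.inl h0.1) s h2
            exact ⟨h3, by omega⟩
          · obtain ⟨h3, h4⟩ := h.mem _ (In.erase hX (Or.inl h0.1) v) (by rw [card_erase_of_mem hv]; omega) s h2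
            rw [card_erase_of_mem hv] at h4
            exact ⟨h3, by omega⟩
        refine ⟨h1.1, h1.2, ?_⟩
        have h2 : z (γ t • (γ t)⁻¹ • t) s ≠ 0 := by rwa [smul_inv_smul]
        obtain ⟨s₀, hs₀, hss⟩ := hF₁ _ (hX.mem _ _ h0.1) (by rw [card_smul_finset]; exact h0.2) _ s h2
        exact ⟨s₀, mem_biUnion.2 ⟨_, hγ t h0.1, hs₀⟩, hss⟩
      obtain ⟨w, hw⟩ := hua (f (γ t)) (z t) (|CA| + (k + 1) * C) hsup (hzcyc t h0.1 h0.2) (hzb t h0.1 h0.2)
      exact ⟨w, fun _ _ => hw⟩
    · exact ⟨0, fun h1 h2 => absurd ⟨h1, h2⟩ h0⟩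
  choose w hw using hw
  refine ⟨fun t => if t.card = k + 1 then w t else Φ t, ?_, ?_, ?_, ?_, ?_⟩
  · -- `mem`
    intro t ht htk s hs
    have hs' : (if t.card = k + 1 then w t else Φ t) s ≠ 0 := hs
    by_cases h1 : t.card = k + 1
    · rw [if_pos h1] at hs'
      have htX : t ∈ X := by
        rcases ht with ht | rfl
        · exact ht
        · simp at h1
      obtain ⟨h2, h3, -⟩ := (hw t htX h1).1 s hs'
      exact ⟨Or.inl h2, by omega⟩
    · rw [if_neg h1] at hs'
      exact h.mem t ht (by omega) s hs'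
  · -- `near`
    intro t ht htk
    by_cases h1 : t.card = k + 1
    · have htX : t ∈ X := by
        rcases ht with ht | rfl
        · exact ht
        · simp at h1
      have hfin := finite_move hX T htX
      refine ⟨hfin.toFinset.biUnion fun a => ((hf a).toFinset ×ˢ F').image fun p => p.1 • p.2, fun g s hs => ?_⟩
      have hs' : (if (g • t).card = k + 1 then w (g • t) else Φ (g • t)) s ≠ 0 := hs
      rw [if_pos (by rw [card_smul_finset]; exact h1)] at hs'
      have hgX := hX.mem g t htX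
      obtain ⟨-, -, s₀, hs₀, hss⟩ := (hw (g • t) hgX (by rw [card_smul_finset]; exact h1)).1 s hs'
      refine ⟨((f g)⁻¹ * f (γ (g • t))) • s₀, mem_biUnion.2 ⟨g⁻¹ * γ (g • t), ?_, mem_image.2
        ⟨((f g)⁻¹ * f (γ (g • t)), s₀), mem_product.2 ⟨?_, hs₀⟩, rfl⟩⟩, ?_⟩
      · rw [Set.Finite.mem_toFinset]
        refine ⟨_, hγ _ hgX, ?_⟩
        rw [mul_smul, smul_inv_smul, inv_smul_smul]
      · rw [Set.Finite.mem_toFinset]
        refine ⟨g, ?_⟩
        rw [mul_inv_cancel_left]
      · rw [mul_smul, smul_inv_smul]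
        exact hss
    · obtain ⟨F, hF⟩ := h.near t ht (by omega)
      refine ⟨F, fun g s hs => ?_⟩
      have hs' : (if (g • t).card = k + 1 then w (g • t) else Φ (g • t)) s ≠ 0 := hs
      rw [if_neg (by rw [card_smul_finset]; exact h1)] at hs'
      exact hF g s hs'
  · -- `bdd`
    refine ⟨max C (C' * (|CA| + (k + 1) * C)), le_max_of_le_left hC0, fun t ht htk s => ?_⟩
    show |(if t.card = k + 1 then w t else Φ t) s| ≤ _
    by_cases h1 : t.card = k + 1
    · have htX : t ∈ X := by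
        rcases ht with ht | rfl
        · exact ht
        · simp at h1
      rw [if_pos h1]
      exact ((hw t htX h1).2.2 s).trans (le_max_right _ _)
    · rw [if_neg h1]
      exact (hC t ht (by omega) s).trans (le_max_left _ _)
  · -- `zero`
    show (if (∅ : Finset V).card = k + 1 then w ∅ else Φ ∅) = φ₀
    rw [if_neg (by simp)]
    exact h.zero
  · -- `eq`
    intro t ht htk
    have h2 : lc (fun t => if t.card = k + 1 then w t else Φ t) (bdF r (Finsupp.single t 1)) =
        lc Φ (bdF r (Finsupp.single t 1)) := by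
      rw [lc_bd, lc_bd]
      refine sum_congr rfl fun v hv => ?_
      have h3 : (t.erase v).card ≠ k + 1 := by
        rw [card_erase_of_mem hv]
        have := card_pos.2 ⟨v, hv⟩
        omega
      show _ • (if (t.erase v).card = k + 1 then w (t.erase v) else Φ (t.erase v)) = _
      rw [if_neg h3]
    rw [h2]
    show bdF r' (if t.card = k + 1 then w t else Φ t) = _
    by_cases h1 : t.card = k + 1
    · have htX : t ∈ X := by
        rcases ht with ht | rfl
        · exact ht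
        · simp at h1
      rw [if_pos h1]
      exact (hw t htX h1).2.1
    · rw [if_neg h1]
      exact h.eq t ht (by omega)

/-- **Extension** -/
theorem exists_ext (hX : IsGeomS G X) (hY : IsGeomS L Y) (hac : AcR Y) {r : V → V → Prop} (hr : IsStrictTotalOrder V r)
    {r' : U → U → Prop} (hr' : IsStrictTotalOrder U r') {f : G → L} (hf : Lip f) (e : ℕ) {c : ℝ} (hc : c = 1 ∨ c = -1)
    {A : Finset V → Finset U →₀ ℝ} (hA : Ctr f X Y 1 e A)
    (hcyc : ∀ t, In X t → bdF r' (A t) + c • lc A (bdF r (Finsupp.single t 1)) = 0)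
    {φ₀ : Finset U →₀ ℝ} (h₀ : ∀ s, φ₀ s ≠ 0 → s = ∅ ∧ e = 0) (hb : A ∅ = 0) :
    ∃ Φ : Finset V → Finset U →₀ ℝ, Ctr f X Y 0 e Φ ∧ Φ ∅ = φ₀ ∧
      ∀ t ∈ X, bdF r' (Φ t) = A t + c • lc Φ (bdF r (Finsupp.single t 1)) := by
  classical
  have key : ∀ k, ∃ Φ, PExt f X Y r r' e c A φ₀ k Φ := by
    intro k
    induction k with
    | zero =>
      refine ⟨fun _ => φ₀, ?_, ?_, ?_, rfl, ?_⟩
      · intro t ht htk s hs
        obtain ⟨rfl, rfl⟩ := h₀ s hs
        refine ⟨Or.inr rfl, ?_⟩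
        have : t.card = 0 := by omega
        rw [this, card_empty]
      · intro t ht htk
        refine ⟨{∅}, fun g s hs => ⟨∅, mem_singleton_self _, ?_⟩⟩
        rw [smul_finset_empty]
        exact (h₀ s hs).1
      · refine ⟨|φ₀ ∅|, abs_nonneg _, fun t _ _ s => ?_⟩
        show |φ₀ s| ≤ |φ₀ ∅|
        by_cases hs : φ₀ s = 0
        · rw [hs, abs_zero]
          exact abs_nonneg _
        · rw [(h₀ s hs).1]
      · intro t ht htk
        have h1 : t = ∅ := card_eq_zero.1 (by omega)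
        subst h1
        have h2 : bdF r (Finsupp.single (∅ : Finset V) 1) = 0 := by
          rw [bdF_single, sum_empty]
        have h3 : bdF r' φ₀ = 0 := by
          have h4 : φ₀ = φ₀ ∅ • Finsupp.single (∅ : Finset U) (1 : ℝ) := by
            ext s
            rw [Finsupp.smul_apply, Finsupp.single_apply]
            by_cases hs : φ₀ s = 0
            · by_cases hs' : ∅ = s
              · subst hs'
                rw [hs, zero_smul]
              · rw [hs, if_neg hs', smul_zero]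
            · rw [← (h₀ s hs).1, if_pos rfl, smul_eq_mul, mul_one]
          rw [h4, map_smul, bdF_single, sum_empty, smul_zero]
        show bdF r' φ₀ = _
        rw [h3, hb, h2, map_zero, smul_zero, add_zero]
    | succ k ih =>
      obtain ⟨Φ, hΦ⟩ := ih
      exact hΦ.step hX hY hac hr hr' hf hc hA hcyc
  obtain ⟨T, hT⟩ := hX.cocompact
  have hdim : ∀ t, In X t → t.card ≤ T.sup Finset.card := by
    rintro t (ht | rfl)
    · obtain ⟨g, hg⟩ := hT t ht
      have h1 := Finset.le_sup (f := Finset.card) hg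
      rwa [card_smul_finset] at h1
    · simp
  obtain ⟨Φ, hΦ⟩ := key (T.sup Finset.card)
  obtain ⟨C, -, hC⟩ := hΦ.bdd
  refine ⟨Φ, ⟨fun t ht s hs => ?_, fun t ht => hΦ.near t ht (hdim t ht), fun _ => ⟨C, fun t ht _ s => hC t ht (hdim t ht) s⟩⟩,
    hΦ.zero, fun t ht => hΦ.eq t (Or.inl ht) (hdim t (Or.inl ht))⟩
  obtain ⟨h1, h2⟩ := hΦ.mem t ht (hdim t ht) s hs
  exact ⟨h1, by omega⟩

end Pool.Agent.PQ
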