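import Pool.Agent.PQ.Ext

/-!
# Project PQ: controlled chain maps and homotopies

PROOFS.  `exists_chm`: `exists_ext` with `e = 0`, `c = 1`, `A = 0`, `φ₀ = single ∅ 1` (at the empty set both sides of `ChM` are zero: `bdF r' (single ∅ 1) = 0`, empty sum).
`exists_hom`: `exists_ext` with `e = 1`, `c = -1`, `A t = Φ₁ t - Φ₂ t`, `φ₀ = 0`; `hcyc`: `bdF r' (Φ₁ t - Φ₂ t) = lc (Φ₁ - Φ₂) (bdF r (single t 1))` (`ChM`).
-/

set_option autoImplicit false
set_option linter.unusedSectionVars false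

open Finset Pointwise

noncomputable section

namespace Pool.Agent.PQ

open Pool.Agent.S11 Pool.Agent.H10.CI

variable {U V G L : Type} [DecidableEq U] [DecidableEq V] [Group G] [Group L] [MulAction G V] [MulAction L U]
  {X : Set (Finset V)} {Y : Set (Finset U)}

theorem exists_chm (hX : IsGeomS G X) (hY : IsGeomS L Y) (hac : AcR Y) {r : V → V → Prop} (hr : IsStrictTotalOrder V r)
    {r' : U → U → Prop} (hr' : IsStrictTotalOrder U r') {f : G → L} (hf : Lip f) :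
    ∃ Φ : Finset V → Finset U →₀ ℝ, Ctr f X Y 0 0 Φ ∧ ChM r r' X Φ ∧ Φ ∅ = Finsupp.single ∅ 1 := by
  obtain ⟨Φ, h1, h2, h3⟩ := exists_ext (A := fun _ => 0) (φ₀ := Finsupp.single ∅ 1) hX hY hac hr hr' hf 0 (Or.inl rfl)
    (by
      refine ⟨fun t _ s hs => absurd rfl hs, fun t _ => ⟨∅, fun g s hs => absurd rfl hs⟩, fun k => ⟨0, fun t _ _ s => ?_⟩⟩
      show |(0 : Finset U →₀ ℝ) s| ≤ 0
      rw [Finsupp.zero_apply, abs_zero])
    (by
      intro t _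
      show bdF r' 0 + (1 : ℝ) • lc (fun _ => 0) (bdF r (Finsupp.single t 1)) = 0
      rw [lc_bd, map_zero, zero_add, one_smul]
      exact sum_eq_zero fun v _ => smul_zero _)
    (by
      intro s hs
      refine ⟨?_, rfl⟩
      by_contra h0
      exact hs (Finsupp.single_eq_of_ne (fun h1 => h0 h1)))
    rfl
  refine ⟨Φ, h1, ?_, h2⟩
  rintro t (ht | rfl)
  · rw [h3 t ht, zero_add, one_smul]
  · rw [h2, bdF_single, bdF_single, sum_empty, sum_empty, map_zero]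

theorem exists_hom (hX : IsGeomS G X) (hY : IsGeomS L Y) (hac : AcR Y) {r : V → V → Prop} (hr : IsStrictTotalOrder V r)
    {r' : U → U → Prop} (hr' : IsStrictTotalOrder U r') {f : G → L} (hf : Lip f) {Φ₁ Φ₂ : Finset V → Finset U →₀ ℝ}
    (h₁ : Ctr f X Y 0 0 Φ₁) (h₂ : Ctr f X Y 0 0 Φ₂) (hc₁ : ChM r r' X Φ₁) (hc₂ : ChM r r' X Φ₂) (h0 : Φ₁ ∅ = Φ₂ ∅) :
    ∃ h : Finset V → Finset U →₀ ℝ, Ctr f X Y 0 1 h ∧ h ∅ = 0 ∧
      ∀ t ∈ X, Φ₁ t - Φ₂ t = bdF r' (h t) + lc h (bdF r (Finsupp.single t 1)) := by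
  classical
  have hne : ∀ t s, (Φ₁ t - Φ₂ t) s ≠ 0 → Φ₁ t s ≠ 0 ∨ Φ₂ t s ≠ 0 := by
    intro t s hs
    by_contra h3
    push Not at h3
    apply hs
    rw [Finsupp.sub_apply, h3.1, h3.2, sub_zero]
  obtain ⟨Φ, h1, h2, h3⟩ := exists_ext (A := fun t => Φ₁ t - Φ₂ t) (φ₀ := 0) hX hY hac hr hr' hf 1 (Or.inr rfl)
    (by
      refine ⟨fun t ht s hs => ?_, fun t ht => ?_, fun k => ?_⟩
      · rcases hne t s hs with h3 | h3
        · obtain ⟨h4, h5⟩ := h₁.mem t ht s h3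
          exact ⟨h4, by omega⟩
        · obtain ⟨h4, h5⟩ := h₂.mem t ht s h3
          exact ⟨h4, by omega⟩
      · obtain ⟨F₁, hF₁⟩ := h₁.near t ht
        obtain ⟨F₂, hF₂⟩ := h₂.near t ht
        refine ⟨F₁ ∪ F₂, fun g s hs => ?_⟩
        rcases hne _ s hs with h3 | h3
        · obtain ⟨s₀, h4, h5⟩ := hF₁ g s h3
          exact ⟨s₀, mem_union_left _ h4, h5⟩
        · obtain ⟨s₀, h4, h5⟩ := hF₂ g s h3
          exact ⟨s₀, mem_union_right _ h4, h5⟩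
      · obtain ⟨C₁, hC₁⟩ := h₁.bdd k
        obtain ⟨C₂, hC₂⟩ := h₂.bdd k
        refine ⟨C₁ + C₂, fun t ht htk s => ?_⟩
        show |(Φ₁ t - Φ₂ t) s| ≤ C₁ + C₂
        rw [Finsupp.sub_apply]
        exact (abs_sub _ _).trans (add_le_add (hC₁ t ht htk s) (hC₂ t ht htk s)))
    (by
      intro t ht
      show bdF r' (Φ₁ t - Φ₂ t) + (-1 : ℝ) • lc (fun t => Φ₁ t - Φ₂ t) (bdF r (Finsupp.single t 1)) = 0
      rw [map_sub, hc₁ t ht, hc₂ t ht, lc_bd, lc_bd, lc_bd, ← sum_sub_distrib, neg_smul, one_smul]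
      rw [add_neg_eq_zero]
      exact sum_congr rfl fun v _ => (smul_sub _ _ _).symm)
    (by
      intro s hs
      exact absurd rfl hs)
    (by
      show Φ₁ ∅ - Φ₂ ∅ = 0
      rw [h0, sub_self])
  refine ⟨Φ, h1, h2, fun t ht => ?_⟩
  rw [h3 t ht, neg_smul, one_smul]
  show _ = (Φ₁ t - Φ₂ t) + -_ + _
  abel

end Pool.Agent.PQ
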