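import Pool.Agent.PQ.CmA

/-!
# Project PQ: the columns of a controlled map over a coarse embedding are uniformly finite

PROOF.  `s = ∅`: `s.card + 0 = t.card + b` gives `t = ∅`.  Let `s ∈ Y`.  Every `t` in the set is `g • t₀` with `t₀ ∈ T`, `T` finite (`hX.cocompact`; for `k = 0` only `t = ∅`), and `s ∈ f g • F` with `F` finite (the union of the sets of `near` over `T`).  If the set is not empty, fix one
such `g₁`; for every other `g`: `((f g₁)⁻¹ * f g) • s₀ = s₁` for some `s₀, s₁ ∈ F` (simplices of `Y`), so `(f g₁)⁻¹ * f (g₁ * a)`, `a = g₁⁻¹ * g`, is in the finite set `E = {x | ∃ s₀ ∈ F, ∃ s₁ ∈ F, s₀ ∈ Y ∧ x • s₀ = s₁}` (`hY.proper`: cosets of finite stabilizers), which does not depend on `s`;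
`a` is in the finite set `{a | ∃ g, (f g)⁻¹ * f (g * a) ∈ E}` (`CoarseEmb.prop_fin`), of cardinality `m`; `N = m * T.card + 1`.
-/

set_option autoImplicit false
set_option linter.unusedSectionVars false

open Finset Pointwise

noncomputable section

namespace Pool.Agent.PQ

open Pool.Agent.S11 Pool.Agent.H10.CI

variable {U V G L : Type} [DecidableEq U] [DecidableEq V] [Group G] [Group L] [MulAction G V] [MulAction L U]
  {X : Set (Finset V)} {Y : Set (Finset U)}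

/-- finitely many elements carry a simplex of a finite set into a finite set -/
private theorem row_fin (hY : IsGeomS L Y) (F : Finset (Finset U)) :
    {x : L | ∃ s₀ ∈ F, ∃ s₁ ∈ F, s₀ ∈ Y ∧ x • s₀ = s₁}.Finite := by
  have h1 : ∀ s₀ : Finset U, s₀ ∈ Y → ∀ s₁ : Finset U, {x : L | x • s₀ = s₁}.Finite := by
    intro s₀ hs₀ s₁
    by_cases h : ∃ x₀ : L, x₀ • s₀ = s₁
    · obtain ⟨x₀, hx₀⟩ := h
      refine ((hY.proper s₀ hs₀).image (fun g => x₀ * g)).subset ?_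
      intro x hx
      refine ⟨x₀⁻¹ * x, ?_, mul_inv_cancel_left x₀ x⟩
      show (x₀⁻¹ * x) • s₀ = s₀
      have hx' : x • s₀ = s₁ := hx
      rw [mul_smul, hx', ← hx₀, inv_smul_smul]
    · refine Set.finite_empty.subset ?_
      intro x hx
      exact (h ⟨x, hx⟩).elim
  have h2 : {x : L | ∃ s₀ ∈ F, ∃ s₁ ∈ F, s₀ ∈ Y ∧ x • s₀ = s₁} ⊆
      ⋃ s₀ ∈ {s₀ : Finset U | s₀ ∈ F ∧ s₀ ∈ Y}, ⋃ s₁ ∈ (F : Set (Finset U)), {x : L | x • s₀ = s₁} := by
    rintro x ⟨s₀, h0, s₁, h1, hY0, hx⟩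
    exact Set.mem_biUnion (show s₀ ∈ {s₀ : Finset U | s₀ ∈ F ∧ s₀ ∈ Y} from ⟨h0, hY0⟩)
      (Set.mem_biUnion (Finset.mem_coe.2 h1) hx)
  refine Set.Finite.subset ?_ h2
  refine Set.Finite.biUnion (F.finite_toSet.subset fun s₀ h => h.1) ?_
  intro s₀ hs₀
  exact Set.Finite.biUnion F.finite_toSet fun s₁ _ => h1 s₀ hs₀.2 s₁

theorem Ctr.cols (hX : IsGeomS G X) (hY : IsGeomS L Y) {f : G → L} (hf : CoarseEmb f) {b : ℕ}
    {Φ : Finset V → Finset U →₀ ℝ} (hΦ : Ctr f X Y 0 b Φ) (k : ℕ) :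
    ∃ N : ℕ, ∀ s : Finset U, {t | In X t ∧ t.card = k ∧ Φ t s ≠ 0}.Finite ∧
      {t | In X t ∧ t.card = k ∧ Φ t s ≠ 0}.ncard ≤ N := by
  classical
  obtain ⟨F₀, hF₀⟩ := hX.cocompact
  -- the finite set of representatives
  set T : Finset (Finset V) := F₀.filter fun t => t ∈ X with hT
  have hTX : ∀ t ∈ T, t ∈ X := fun t ht => (Finset.mem_filter.1 ht).2
  have hrep : ∀ t ∈ X, ∃ g : G, ∃ t₀ ∈ T, t = g • t₀ := by
    intro t ht
    obtain ⟨g, hg⟩ := hF₀ t ht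
    exact ⟨g⁻¹, g • t, Finset.mem_filter.2 ⟨hg, hX.mem g t ht⟩, (inv_smul_smul g t).symm⟩
  have hnear : ∀ t : Finset V, ∃ F : Finset (Finset U), t ∈ X →
      ∀ g : G, ∀ s, Φ (g • t) s ≠ 0 → ∃ s₀ ∈ F, s = f g • s₀ := by
    intro t
    by_cases ht : t ∈ X
    · obtain ⟨F, hF⟩ := hΦ.near t (Or.inl ht)
      exact ⟨F, fun _ => hF⟩
    · exact ⟨∅, fun h => (ht h).elim⟩
  choose Fn hFn using hnear
  set F : Finset (Finset U) := T.biUnion Fn with hF
  have hE := row_fin (L := L) hY F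
  have hA := hf.prop_fin hE
  refine ⟨hA.toFinset.card * T.card + 1, fun s => ?_⟩
  set S : Set (Finset V) := {t | In X t ∧ t.card = k ∧ Φ t s ≠ 0} with hS
  -- it is enough to find a small finite set which contains `S`
  have key : ∀ Q : Finset (Finset V), S ⊆ (Q : Set (Finset V)) → Q.card ≤ hA.toFinset.card * T.card + 1 →
      S.Finite ∧ S.ncard ≤ hA.toFinset.card * T.card + 1 := by
    intro Q hQ hc
    refine ⟨Q.finite_toSet.subset hQ, le_trans ?_ hc⟩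
    have := Set.ncard_le_ncard hQ Q.finite_toSet
    rwa [Set.ncard_coe_finset] at this
  by_cases hk : k = 0
  · refine key {∅} ?_ (by simp)
    intro t ht
    have h1 : t.card = k := ht.2.1
    rw [hk, Finset.card_eq_zero] at h1
    simp [h1]
  by_cases hs : s = ∅
  · refine key ∅ ?_ (by simp)
    intro t ht
    have h1 := (hΦ.mem t ht.1 s ht.2.2).2
    rw [hs, Finset.card_empty, ht.2.1] at h1
    omega
  by_cases hne : S.Nonempty
  swap
  · rw [Set.not_nonempty_iff_eq_empty] at hne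
    refine key ∅ ?_ (by simp)
    rw [hne]
    exact Set.empty_subset _
  have hmemX : ∀ t ∈ S, t ∈ X := by
    intro t ht
    rcases ht.1 with h | h
    · exact h
    · exfalso
      have h1 : t.card = k := ht.2.1
      rw [h, Finset.card_empty] at h1
      exact hk h1.symm
  obtain ⟨t₁, ht₁⟩ := hne
  have hsY : s ∈ Y := by
    rcases (hΦ.mem t₁ ht₁.1 s ht₁.2.2).1 with h | h
    · exact h
    · exact (hs h).elim
  have hdec : ∀ t ∈ S, ∃ g : G, ∃ t₀ ∈ T, t = g • t₀ ∧ ∃ s₀ ∈ F, s = f g • s₀ := by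
    intro t ht
    obtain ⟨g, t₀, ht₀, rfl⟩ := hrep t (hmemX t ht)
    obtain ⟨s₀, hs₀, e⟩ := hFn t₀ (hTX t₀ ht₀) g s ht.2.2
    exact ⟨g, t₀, ht₀, rfl, s₀, Finset.mem_biUnion.2 ⟨t₀, ht₀, hs₀⟩, e⟩
  obtain ⟨g₁, -, -, -, s₁, hs₁, e₁⟩ := hdec t₁ ht₁
  refine key ((hA.toFinset ×ˢ T).image fun p => (g₁ * p.1) • p.2) ?_ ?_
  · intro t ht
    obtain ⟨g, t₀, ht₀, rfl, s₀, hs₀, e⟩ := hdec t ht
    rw [Finset.mem_coe, Finset.mem_image]
    refine ⟨(g₁⁻¹ * g, t₀), Finset.mem_product.2 ⟨?_, ht₀⟩, ?_⟩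
    · rw [Set.Finite.mem_toFinset]
      refine ⟨g₁, s₀, hs₀, s₁, hs₁, ?_, ?_⟩
      · have h1 : s₀ = (f g)⁻¹ • s := by rw [e, inv_smul_smul]
        rw [h1]
        exact hY.mem _ s hsY
      · rw [mul_inv_cancel_left, mul_smul, ← e, e₁, inv_smul_smul]
    · show (g₁ * (g₁⁻¹ * g)) • t₀ = g • t₀
      rw [mul_inv_cancel_left]
  · refine le_trans Finset.card_image_le ?_
    rw [Finset.card_product]
    exact Nat.le_succ _

end Pool.Agent.PQ
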