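import Pool.Agent.PQ.UAa

/-!
# Project PQ: uniform acyclicity

PROOF of `exists_ua` from `exists_ua_one`.  For general `l`: `r₁ u v := r' (l • u) (l • v)` is a strict total order; the relation `bdF` for `r₁` and the translate: `z₁ s := z (l • s)` is a cycle for `r₁` supported in `F`; apply `exists_eps` (`S11/EdOrd`)
to `r₁` and `r'` on `Y` (`tot_of_order`): a sign function `eps` with `sgR r' s v = eps s * eps (insert v s) * sgR r₁ s v`; so `s ↦ eps s * z₁ s` is a cycle for `r'` supported in `F`
with the same absolute values; take `w₀` from the case `l = 1`, and `w s := eps (l⁻¹ • s) * w₀ (l⁻¹ • s)`.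
(The constants depend on `F`, `k` only.  If `z` is not zero then `M ≥ 0`; if `z = 0` take `w = 0`, note `|z s| ≤ M` gives `0 ≤ M`.)
-/

set_option autoImplicit false
set_option linter.unusedSectionVars false

open Finset Pointwise

noncomputable section

namespace Pool.Agent.PQ

open Pool.Agent.S11 Pool.Agent.H10.CI

variable {U L : Type} [DecidableEq U] [Group L] [MulAction L U]

/-- the signed translation of chains -/
private def uaTr (l : L) (e : Finset U → ℝ) : (Finset U →₀ ℝ) →ₗ[ℝ] (Finset U →₀ ℝ) :=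
  Finsupp.linearCombination ℝ fun s => e s • Finsupp.single (l • s) (1 : ℝ)

private theorem uaTr_apply (l : L) (e : Finset U → ℝ) (w : Finset U →₀ ℝ) (t : Finset U) :
    uaTr l e w t = e (l⁻¹ • t) * w (l⁻¹ • t) := by
  have h0 : uaTr l e w t = w.sum fun s a => a * (e s * (Finsupp.single (l • s) (1 : ℝ)) t) := by
    unfold uaTr
    rw [Finsupp.linearCombination_apply, Finsupp.sum_apply]
    rfl
  rw [h0, Finsupp.sum, sum_eq_single (l⁻¹ • t)]
  · rw [smul_inv_smul, Finsupp.single_eq_same, mul_one, mul_comm]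
  · intro s _ hs
    rw [Finsupp.single_eq_of_ne, mul_zero, mul_zero]
    intro h
    exact hs (by rw [h, inv_smul_smul])
  · intro hs
    rw [Finsupp.notMem_support_iff.1 hs, zero_mul]

private theorem ua_erase (l : L) (s : Finset U) (v : U) : (l • s).erase (l • v) = l • s.erase v := by
  exact (image_erase (MulAction.injective l) s v).symm

private theorem ua_sg (r : U → U → Prop) (l : L) (s : Finset U) (v : U) :
    sgR r (l • s) (l • v) = sgR (fun a b => r (l • a) (l • b)) s v := by
  classical
  unfold sgR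
  congr 1
  have h : (l • s).filter (fun u => r u (l • v)) = (s.filter fun u => r (l • u) (l • v)).image (l • ·) := by
    show (s.image (l • ·)).filter (fun u => r u (l • v)) = _
    rw [filter_image]
  have h2 : ((l • s).filter (fun u => r u (l • v))).card = (s.filter fun u => r (l • u) (l • v)).card := by
    rw [h, card_image_of_injective _ (MulAction.injective l)]
  convert h2

private theorem ua_comm {Y : Set (Finset U)} {r : U → U → Prop} {l : L} {e : Finset U → ℝ}
    (he : ∀ s v, v ∉ s → insert v s ∈ Y →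
      e (insert v s) * (sgR r (l • s) (l • v) : ℝ) = e s * (sgR r s v : ℝ)) {w : Finset U →₀ ℝ}
    (hw : ∀ s, w s ≠ 0 → In Y s) : bdF r (uaTr l e w) = uaTr l e (bdF r w) := by
  have h1 : bdF r (uaTr l e w) = ∑ s ∈ w.support, w s • (e s • bdF r (Finsupp.single (l • s) 1)) := by
    unfold uaTr
    rw [Finsupp.linearCombination_apply, Finsupp.sum, map_sum]
    exact sum_congr rfl fun s _ => by rw [map_smul, map_smul]
  have h2 : uaTr l e (bdF r w) = ∑ s ∈ w.support, w s • uaTr l e (∑ v ∈ s, (sgR r (s.erase v) v : ℝ) •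
      Finsupp.single (s.erase v) (1 : ℝ)) := by
    unfold bdF
    rw [Finsupp.linearCombination_apply, Finsupp.sum, map_sum]
    exact sum_congr rfl fun s _ => by rw [map_smul]
  rw [h1, h2]
  refine sum_congr rfl fun s hs => ?_
  congr 1
  rw [bdF_single, map_sum, smul_sum]
  have h3 : (l • s) = s.image (l • ·) := rfl
  have h4 : ∀ f : U → (Finset U →₀ ℝ), ∑ v ∈ l • s, f v = ∑ v ∈ s, f (l • v) := by
    intro f
    rw [h3, sum_image]
    intro a _ b _ hab
    exact MulAction.injective l hab
  rw [h4]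
  refine sum_congr rfl fun v hv => ?_
  have hY : s ∈ Y := by
    rcases hw s (Finsupp.mem_support_iff.1 hs) with h | h
    · exact h
    · subst h
      simp at hv
  have h5 := he (s.erase v) v (notMem_erase v s) (by rwa [insert_erase hv])
  rw [insert_erase hv] at h5
  rw [ua_erase, map_smul, uaTr, Finsupp.linearCombination_single, one_smul, smul_smul, smul_smul, h5, mul_comm]

/-- **Uniform acyclicity** -/
theorem exists_ua {Y : Set (Finset U)} (hdown : ∀ s ∈ Y, ∀ t, t ⊆ s → t.Nonempty → t ∈ Y)
    (hmem : ∀ (g : L), ∀ s ∈ Y, g • s ∈ Y) (hac : AcR Y) {r : U → U → Prop} (hr : IsStrictTotalOrder U r)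
    (F : Finset (Finset U)) (k : ℕ) :
    ∃ (F' : Finset (Finset U)) (C : ℝ), 0 ≤ C ∧ ∀ (l : L) (z : Finset U →₀ ℝ) (M : ℝ),
      (∀ s, z s ≠ 0 → In Y s ∧ s.card = k ∧ ∃ s₀ ∈ F, s = l • s₀) → bdF r z = 0 → (∀ s, |z s| ≤ M) →
      ∃ w : Finset U →₀ ℝ, (∀ s, w s ≠ 0 → s ∈ Y ∧ s.card = k + 1 ∧ ∃ s₀ ∈ F', s = l • s₀) ∧ bdF r w = z ∧
        ∀ s, |w s| ≤ C * M := by
  obtain ⟨F', C, hC, hone⟩ := exists_ua_one hac hr F k
  refine ⟨F', C, hC, fun l z M hz hbd hM => ?_⟩
  -- the translated order
  have hr₁ : IsStrictTotalOrder U (fun a b => r (l • a) (l • b)) :=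
    { trichotomous := fun a b h1 h2 => by
        have h3 : l • a = l • b := by
          rcases trichotomous_of r (l • a) (l • b) with h | h | h
          · exact absurd h h1
          · exact h
          · exact absurd h h2
        exact MulAction.injective l h3
      irrefl := fun a => irrefl_of r (l • a)
      trans := fun a b c h1 h2 => trans_of r h1 h2 }
  obtain ⟨eps, he, hs⟩ := exists_eps hdown (tot_of_order (X := Y) hr₁) (tot_of_order (X := Y) hr)
  have he2 : ∀ s, (eps s : ℝ) * eps s = 1 := by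
    intro s
    rcases he s with h | h <;> rw [h] <;> norm_num
  have heabs : ∀ s, |(eps s : ℝ)| = 1 := by
    intro s
    rcases he s with h | h <;> rw [h] <;> norm_num
  have hs' : ∀ s v, v ∉ s → insert v s ∈ Y →
      (eps (insert v s) : ℝ) * (sgR r (l • s) (l • v) : ℝ) = eps s * (sgR r s v : ℝ) := by
    intro s v hv hY
    rw [ua_sg, hs s v hv hY]
    push_cast
    have h2 := he2 s
    calc (eps (insert v s) : ℝ) * (sgR (fun a b => r (l • a) (l • b)) s v : ℝ)
        = (eps s * eps s) * (eps (insert v s) * (sgR (fun a b => r (l • a) (l • b)) s v : ℝ)) := by rw [h2, one_mul]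
      _ = _ := by ring
  set e : Finset U → ℝ := fun s => (eps s : ℝ) with hedef
  -- the translated chain
  set y : Finset U →₀ ℝ := uaTr l⁻¹ (fun s => e (l⁻¹ • s)) z with hydef
  have hy : ∀ s, y s = e s * z (l • s) := by
    intro s
    rw [hydef, uaTr_apply, inv_inv, inv_smul_smul]
  have hyz : uaTr l e y = z := by
    ext t
    rw [uaTr_apply, hy, smul_inv_smul, ← mul_assoc, he2, one_mul]
  have hysupp : ∀ s, y s ≠ 0 → In Y s ∧ s.card = k ∧ s ∈ F := by
    intro s hne
    rw [hy] at hne
    obtain ⟨h1, h2, s₀, hs₀, h3⟩ := hz (l • s) (right_ne_zero_of_mul hne)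
    refine ⟨?_, by rwa [card_smul_finset] at h2, ?_⟩
    · rcases h1 with h1 | h1
      · left
        have := hmem l⁻¹ _ h1
        rwa [inv_smul_smul] at this
      · right
        exact smul_finset_eq_empty.1 h1
    · rw [smul_left_cancel l h3]
      exact hs₀
  have hyM : ∀ s, |y s| ≤ M := by
    intro s
    rw [hy, abs_mul, heabs, one_mul]
    exact hM _
  have hybd : bdF r y = 0 := by
    have h1 : uaTr l e (bdF r y) = 0 := by
      rw [← ua_comm (Y := Y) hs' (fun s hne => (hysupp s hne).1), hyz, hbd]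
    ext s
    have h2 := DFunLike.congr_fun h1 (l • s)
    rw [uaTr_apply, inv_smul_smul, Finsupp.zero_apply] at h2
    rcases mul_eq_zero.1 h2 with h3 | h3
    · have h4 := he2 s
      have h5 : (eps s : ℝ) = 0 := h3
      rw [h5, mul_zero] at h4
      exact absurd h4 zero_ne_one
    · rw [h3, Finsupp.zero_apply]
  obtain ⟨w₀, hw1, hw2, hw3⟩ := hone y M hysupp hybd hyM
  refine ⟨uaTr l e w₀, ?_, ?_, ?_⟩
  · intro t ht
    rw [uaTr_apply] at ht
    obtain ⟨h1, h2, h3⟩ := hw1 _ (right_ne_zero_of_mul ht)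
    refine ⟨?_, by rwa [card_smul_finset] at h2, l⁻¹ • t, h3, by rw [smul_inv_smul]⟩
    have := hmem l _ h1
    rwa [smul_inv_smul] at this
  · rw [ua_comm (Y := Y) hs' (fun s hne => Or.inl (hw1 s hne).1), hw2, hyz]
  · intro t
    rw [uaTr_apply, abs_mul]
    have : |e (l⁻¹ • t)| = 1 := heabs _
    rw [this, one_mul]
    exact hw3 _

end Pool.Agent.PQ
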