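import Pool.Agent.PQ.Bd

/-!
# Project PQ: uniform acyclicity, the case of one finite set

PROOF of `exists_ua_one`.  The real chains `z` which are supported in `F` and in the simplices (or the empty set) with `k` vertices, with `bdF r z = 0`, form a
finite dimensional space `Z`; choose a basis, primitives of the basis vectors (`hac`; keep only the part with `k + 1` vertices, its boundary is the part of `z` with `k` vertices), and extend linearly: a linear map `P : Z → chains` with
`bdF r (P z) = z`, supported in a finite set `F'`, and `|P z s| ≤ C * sup |z|` (finite dimensional: all norms are equivalent, or: the coordinates with respect to the basis are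
linear functions on `Z`, extended to `F → ℝ`, so bounded by a constant times the supremum).
(`|z s| ≤ M` gives `0 ≤ M`.)
-/

set_option autoImplicit false
set_option linter.unusedSectionVars false

open Finset Pointwise

noncomputable section

namespace Pool.Agent.PQ

open Pool.Agent.S11 Pool.Agent.H10.CI

variable {U : Type} [DecidableEq U]

/-- the boundary of the part with `k + 1` vertices -/
private theorem ua_part (r : U → U → Prop) (w : Finset U →₀ ℝ) (k : ℕ) (s : Finset U) :
    bdF r (w.filter fun t => t.card = k + 1) s = if s.card = k then bdF r w s else 0 := by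
  classical
  rw [bdF_apply, bdF_apply]
  unfold bdR
  split_ifs with h
  · refine finsum_mem_congr rfl fun v hv => ?_
    have h1 : (insert v s).card = k + 1 := by
      rw [card_insert_of_notMem hv, h]
    rw [Finsupp.filter_apply_pos (fun t : Finset U => t.card = k + 1) w h1]
  · refine finsum_mem_of_eqOn_zero fun v hv => ?_
    have h1 : ¬ (insert v s).card = k + 1 := by
      rw [card_insert_of_notMem hv]
      omega
    show (sgR r s v : ℝ) * (w.filter fun t => t.card = k + 1) (insert v s) = 0
    rw [Finsupp.filter_apply_neg (fun t : Finset U => t.card = k + 1) w h1, mul_zero]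

/-- the chain with given coefficients -/
private def ua_L (FF : Finset (Finset U)) : (FF → ℝ) →ₗ[ℝ] (Finset U →₀ ℝ) :=
  Fintype.linearCombination ℝ (fun i : FF => Finsupp.single (i : Finset U) (1 : ℝ))

private theorem ua_L_mem (FF : Finset (Finset U)) (c : FF → ℝ) (i : FF) : ua_L FF c i = c i := by
  classical
  rw [ua_L, Fintype.linearCombination_apply, Finsupp.finsetSum_apply, Finset.sum_eq_single i]
  · simp
  · intro j _ hj
    have h1 : (j : Finset U) ≠ (i : Finset U) := fun e => hj (Subtype.ext e)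
    simp [h1]
  · intro h
    exact absurd (Finset.mem_univ i) h

private theorem ua_L_not (FF : Finset (Finset U)) (c : FF → ℝ) {s : Finset U} (hs : s ∉ FF) :
    ua_L FF c s = 0 := by
  classical
  rw [ua_L, Fintype.linearCombination_apply, Finsupp.finsetSum_apply]
  refine Finset.sum_eq_zero fun j _ => ?_
  have h1 : (j : Finset U) ≠ s := fun e => hs (e ▸ j.2)
  simp [h1]

private theorem ua_L_eq (FF : Finset (Finset U)) {z : Finset U →₀ ℝ} (hz : ∀ s, z s ≠ 0 → s ∈ FF) :
    ua_L FF (fun i => z i) = z := by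
  ext s
  by_cases h : s ∈ FF
  · exact ua_L_mem FF (fun i => z i) ⟨s, h⟩
  · rw [ua_L_not FF _ h]
    by_contra h1
    exact h (hz s fun e => h1 e.symm)

/-- the case of one finite set -/
theorem exists_ua_one {Y : Set (Finset U)} (hac : AcR Y) {r : U → U → Prop} (hr : IsStrictTotalOrder U r)
    (F : Finset (Finset U)) (k : ℕ) :
    ∃ (F' : Finset (Finset U)) (C : ℝ), 0 ≤ C ∧ ∀ (z : Finset U →₀ ℝ) (M : ℝ),
      (∀ s, z s ≠ 0 → In Y s ∧ s.card = k ∧ s ∈ F) → bdF r z = 0 → (∀ s, |z s| ≤ M) →
      ∃ w : Finset U →₀ ℝ, (∀ s, w s ≠ 0 → s ∈ Y ∧ s.card = k + 1 ∧ s ∈ F') ∧ bdF r w = z ∧ ∀ s, |w s| ≤ C * M := by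
  classical
  obtain ⟨FF, hFF⟩ : ∃ FF : Finset (Finset U), ∀ s, s ∈ FF ↔ s ∈ F ∧ In Y s ∧ s.card = k :=
    ⟨F.filter fun s => In Y s ∧ s.card = k, fun s => by rw [mem_filter]⟩
  have hprim : ∀ c : LinearMap.ker (bdF r ∘ₗ ua_L FF), ∃ w : Finset U →₀ ℝ,
      (∀ s, w s ≠ 0 → s ∈ Y ∧ s.card = k + 1) ∧ bdF r w = ua_L FF c := by
    intro c
    have h1 : ∀ s, ua_L FF c s ≠ 0 → s ∈ FF := by
      intro s hs
      by_contra h
      exact hs (ua_L_not FF _ h)
    obtain ⟨w, hw1, hw2⟩ := hac r hr (ua_L FF c) (fun s hs => ((hFF s).1 (h1 s hs)).2.1)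
      (by
        have := c.2
        rw [LinearMap.mem_ker] at this
        exact this)
    refine ⟨w.filter fun t => t.card = k + 1, ?_, ?_⟩
    · intro s hs
      by_cases h : s.card = k + 1
      · rw [Finsupp.filter_apply_pos (fun t : Finset U => t.card = k + 1) w h] at hs
        exact ⟨hw1 s hs, h⟩
      · exact absurd (Finsupp.filter_apply_neg (fun t : Finset U => t.card = k + 1) w h) hs
    · ext s
      rw [ua_part, hw2]
      split_ifs with h
      · rfl
      · by_contra h2
        exact h ((hFF s).1 (h1 s fun e => h2 e.symm)).2.2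
  choose P hP1 hP2 using hprim
  set b := Module.finBasis ℝ (LinearMap.ker (bdF r ∘ₗ ua_L FF)) with hb
  set W : Fin (Module.finrank ℝ (LinearMap.ker (bdF r ∘ₗ ua_L FF))) → ℝ :=
    fun i => ∑ s ∈ (P (b i)).support, |P (b i) s| with hW
  have hW0 : ∀ i, 0 ≤ W i := fun i => Finset.sum_nonneg fun s _ => abs_nonneg _
  have hWs : ∀ i s, |P (b i) s| ≤ W i := by
    intro i s
    by_cases h : s ∈ (P (b i)).support
    · exact Finset.single_le_sum (f := fun s => |P (b i) s|) (fun s _ => abs_nonneg _) h
    · rw [Finsupp.notMem_support_iff] at h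
      rw [h, abs_zero]
      exact hW0 i
  refine ⟨Finset.univ.biUnion fun i => (P (b i)).support,
    ∑ i, ‖LinearMap.toContinuousLinearMap (b.coord i)‖ * W i,
    Finset.sum_nonneg fun i _ => mul_nonneg (ContinuousLinearMap.opNorm_nonneg _) (hW0 i), ?_⟩
  intro z M hz hbz hM
  have hM0 : 0 ≤ M := (abs_nonneg _).trans (hM ∅)
  have hL : ua_L FF (fun i => z i) = z :=
    ua_L_eq FF fun s hs => (hFF s).2 ⟨(hz s hs).2.2, (hz s hs).1, (hz s hs).2.1⟩
  set c : LinearMap.ker (bdF r ∘ₗ ua_L FF) := ⟨fun i => z i, by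
    rw [LinearMap.mem_ker, LinearMap.comp_apply, hL, hbz]⟩ with hc
  have hcn : ‖c‖ ≤ M := by
    rw [Submodule.coe_norm]
    rw [pi_norm_le_iff_of_nonneg hM0]
    intro i
    rw [Real.norm_eq_abs]
    exact hM i
  have hco : ∀ i, |b.repr c i| ≤ ‖LinearMap.toContinuousLinearMap (b.coord i)‖ * M := by
    intro i
    have h1 := (LinearMap.toContinuousLinearMap (b.coord i)).le_opNorm c
    have h2 : (LinearMap.toContinuousLinearMap (b.coord i)) c = b.repr c i := rfl
    rw [h2, Real.norm_eq_abs] at h1
    exact h1.trans (mul_le_mul_of_nonneg_left hcn (ContinuousLinearMap.opNorm_nonneg _))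
  have hwa : ∀ s, (∑ i, b.repr c i • P (b i)) s = ∑ i, b.repr c i * P (b i) s := by
    intro s
    rw [Finsupp.finsetSum_apply]
    refine Finset.sum_congr rfl fun i _ => ?_
    rw [Finsupp.smul_apply, smul_eq_mul]
  refine ⟨∑ i, b.repr c i • P (b i), ?_, ?_, ?_⟩
  · intro s hs
    rw [hwa] at hs
    obtain ⟨i, -, hi⟩ := Finset.exists_ne_zero_of_sum_ne_zero hs
    have h1 : P (b i) s ≠ 0 := right_ne_zero_of_mul hi
    refine ⟨(hP1 _ s h1).1, (hP1 _ s h1).2, ?_⟩
    rw [mem_biUnion]
    exact ⟨i, mem_univ _, Finsupp.mem_support_iff.2 h1⟩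
  · rw [map_sum]
    have h1 : ∀ i, bdF r (b.repr c i • P (b i)) = ua_L FF (b.repr c i • (b i : FF → ℝ)) := by
      intro i
      rw [map_smul, map_smul, hP2]
    rw [Finset.sum_congr rfl fun i _ => h1 i, ← map_sum]
    have h2 : (∑ i, b.repr c i • (b i : FF → ℝ)) = (c : FF → ℝ) := by
      have h3 := congrArg (LinearMap.ker (bdF r ∘ₗ ua_L FF)).subtype (b.sum_repr c)
      rw [map_sum] at h3
      exact h3
    rw [h2]
    exact hL
  · intro s
    rw [hwa, Finset.sum_mul]
    refine (Finset.abs_sum_le_sum_abs _ _).trans (Finset.sum_le_sum fun i _ => ?_)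
    rw [abs_mul]
    calc |b.repr c i| * |P (b i) s|
        ≤ (‖LinearMap.toContinuousLinearMap (b.coord i)‖ * M) * W i :=
          mul_le_mul (hco i) (hWs i s) (abs_nonneg _) (mul_nonneg (ContinuousLinearMap.opNorm_nonneg _) hM0)
      _ = ‖LinearMap.toContinuousLinearMap (b.coord i)‖ * W i * M := by ring

end Pool.Agent.PQ
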